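import Mathlib

/-!
Definitions for the critical Pool model: Poisson points, continuous time and space random walks,
the cascade of absorptions, and the radius process.
-/

open MeasureTheory ProbabilityTheory Filter
open scoped ENNReal NNReal Topology

namespace CriticalPool

/-- The plane. -/
abbrev Plane : Type := EuclideanSpace ℝ (Fin 2)

/-- The closed disc `B(r)` of radius `r ∈ [0, ∞]` about the origin. -/
def disc (r : ℝ≥0∞) : Set Plane := {z | ‖z‖ₑ ≤ r}

/-- The number of the particles with label in `A` lying in the region `D`, when particle `i` sits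
at the point `y i`. -/
noncomputable def num (A : Set ℕ) (y : ℕ → Plane) (D : Set Plane) : ℕ∞ :=
  {i | i ∈ A ∧ y i ∈ D}.encard

/-- The radius `√(r² + n/π)`: area `n` is added to the disc of radius `r`. -/
noncomputable def grow (r : ℝ≥0∞) (n : ℕ∞) : ℝ≥0∞ :=
  (r ^ 2 + (n : ℝ≥0∞) / ENNReal.ofReal Real.pi) ^ (1 / 2 : ℝ)

/-- The cascade run on the particles with label in `A` at the positions `y`, with
`B(r_{-1}) = D` and `r_0 = r`. The value at `j` is the pair `(B(r_{j-1}), r_j)`, where
`r_{j+1} = √(r_j² + ξ_{j+1}/π)` and `ξ_{j+1}` is the number of particles of `A` in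
`B(r_j) \ B(r_{j-1})`. -/
noncomputable def cascade (A : Set ℕ) (y : ℕ → Plane) (D : Set Plane) (r : ℝ≥0∞) :
    ℕ → Set Plane × ℝ≥0∞
  | 0 => (D, r)
  | j + 1 =>
    (disc (cascade A y D r j).2,
      grow (cascade A y D r j).2
        (num A y (disc (cascade A y D r j).2 \ (cascade A y D r j).1)))

/-- The number `ξ_{j+1}` of the cascade. -/
noncomputable def xi (A : Set ℕ) (y : ℕ → Plane) (D : Set Plane) (r : ℝ≥0∞) (j : ℕ) : ℕ∞ :=
  num A y (disc (cascade A y D r j).2 \ (cascade A y D r j).1)

open Classical in
/-- The final radius of the cascade: `r_N` with `N = inf {j ≥ 1 : ξ_j = 0}`, and `∞` if there is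
no such `N`. -/
noncomputable def cascadeEnd (A : Set ℕ) (y : ℕ → Plane) (D : Set Plane) (r : ℝ≥0∞) : ℝ≥0∞ :=
  if h : ∃ j, xi A y D r j = 0 then (cascade A y D r (Nat.find h + 1)).2 else ∞

/-- The labels of the particles that are active just before time `t`, when particle `i` follows
the path `x i` and the radius is `E`: those with `|x i s| > E s` for all `s < t`. -/
def activeBefore (x : ℕ → ℝ≥0 → Plane) (E : ℝ≥0 → ℝ≥0∞) (t : ℝ≥0) : Set ℕ :=
  {i | ∀ s < t, E s < ‖x i s‖ₑ}

/-- The times `t > τ` at which a particle that is active just before time `t` lies in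
`B(E t)`. -/
def entrances (x : ℕ → ℝ≥0 → Plane) (τ : ℝ≥0∞) (E : ℝ≥0 → ℝ≥0∞) : Set ℝ≥0 :=
  {t | τ < t ∧ ∃ i ∈ activeBefore x E t, x i t ∈ disc (E t)}

open Classical in
/-- One step of the evolution. The input is a pair `(τ, E)`: the time `τ` of the last growth and
the radius path `E`, constant from `τ` on. If no active particle enters the disc after `τ`, there
is no further growth (the next growth time is `∞`). Otherwise let `T` be the first time after `τ`
at which an active particle lies in the disc; from `T` on the radius is the final radius of the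
cascade started from `B(r_{-1}) = B(E T)`, `r_0 = √((E T)² + 1/π)` and run on the particles that
are active just before `T`, at their positions at time `T`. -/
noncomputable def next (x : ℕ → ℝ≥0 → Plane) (q : ℝ≥0∞ × (ℝ≥0 → ℝ≥0∞)) :
    ℝ≥0∞ × (ℝ≥0 → ℝ≥0∞) :=
  if (entrances x q.1 q.2).Nonempty then
    let T : ℝ≥0 := sInf (entrances x q.1 q.2)
    ((T : ℝ≥0∞), fun t => if t < T then q.2 t else
      cascadeEnd (activeBefore x q.2 T) (fun i => x i T) (disc (q.2 T)) (grow (q.2 T) 1))
  else (∞, q.2)

/-- The `k`-th growth time `τ_k` together with the radius path produced by the growths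
`0, …, k`. Growth `0` is the cascade at time `0`, with `B(r_{-1}) = ∅` and `r_0 = 1/√π`. -/
noncomputable def stage (x : ℕ → ℝ≥0 → Plane) : ℕ → ℝ≥0∞ × (ℝ≥0 → ℝ≥0∞)
  | 0 => (0, fun _ => cascadeEnd Set.univ (fun i => x i 0) ∅ (grow 0 1))
  | k + 1 => next x (stage x k)

open Classical in
/-- The radius `E_t` of the Pool model driven by the particle paths `x`: for
`τ_k ≤ t < τ_{k+1}` it is the radius produced by the growths `0, …, k`, and it is `∞` if all
growth times are at most `t`. -/
noncomputable def radius (x : ℕ → ℝ≥0 → Plane) (t : ℝ≥0) : ℝ≥0∞ :=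
  if h : ∃ k, (t : ℝ≥0∞) < (stage x (k + 1)).1 then (stage x (Nat.find h)).2 t else ∞

/-- The number `N(t)` of arrivals up to time `t` of the counting process with holding times
`S 0, S 1, …`: the number of `k` with `S 0 + ⋯ + S k ≤ t`. -/
noncomputable def arrivals (S : ℕ → ℝ) (t : ℝ≥0) : ℕ :=
  {k : ℕ | ∑ l ∈ Finset.range (k + 1), S l ≤ (t : ℝ)}.ncard

/-- The position at time `t` of the walk started at `p` with holding times `S 0, S 1, …` and
jumps `V 0, V 1, …`: it is `p + V 0 + ⋯ + V (N(t) - 1)`. -/
noncomputable def walk (p : Plane) (S : ℕ → ℝ) (V : ℕ → Plane) (t : ℝ≥0) : Plane :=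
  p + ∑ j ∈ Finset.range (arrivals S t), V j

section Random

variable {Ω : Type*} [MeasurableSpace Ω]

/-- The random points `X 0, X 1, …` form a Poisson point process of intensity `lam` on the plane:
the number of points in a Borel set `A` of finite area is Poisson with mean `lam * |A|`, and the
numbers of points in pairwise disjoint Borel sets are independent. -/
structure IsPoissonProcess (P : Measure Ω) (lam : ℝ≥0) (X : ℕ → Ω → Plane) : Prop where
  measurable : ∀ i, Measurable (X i)
  law : ∀ A : Set Plane, MeasurableSet A → volume A ≠ ∞ →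
    P.map (fun ω => num Set.univ (fun i => X i ω) A) =
      (poissonMeasure (lam * (volume A).toNNReal)).map (Nat.cast : ℕ → ℕ∞)
  indep : ∀ (m : ℕ) (A : Fin m → Set Plane), (∀ j, MeasurableSet (A j)) →
    Pairwise (Function.onFun Disjoint A) →
      iIndepFun (fun j ω => num Set.univ (fun i => X i ω) (A j)) P

/-- The data of the Pool model of intensity `lam`: a Poisson point process `X` of intensity `lam`,
and, for each particle `i`, the holding times `S i 0, S i 1, …` (independent, exponential with
parameter `1`) and the jumps `V i 0, V i 1, …` (independent standard Gaussian vectors) of its walk;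
all the `S i j` and `V i j` are independent of each other and of the family `X`. -/
structure IsPoolData (P : Measure Ω) (lam : ℝ≥0) (X : ℕ → Ω → Plane) (S : ℕ → ℕ → Ω → ℝ)
    (V : ℕ → ℕ → Ω → Plane) : Prop where
  points : IsPoissonProcess P lam X
  measurable_hold : ∀ i j, Measurable (S i j)
  measurable_jump : ∀ i j, Measurable (V i j)
  law : ∀ i j, P.map (fun ω => (S i j ω, V i j ω)) = (expMeasure 1).prod (stdGaussian Plane)
  indep : iIndepFun (fun (q : ℕ × ℕ) ω => (S q.1 q.2 ω, V q.1 q.2 ω)) P
  indep_points : IndepFun (fun ω i => X i ω) (fun ω (q : ℕ × ℕ) => (S q.1 q.2 ω, V q.1 q.2 ω)) P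

/-- The radius `E_t` of the Pool model with the data `X`, `S`, `V`. -/
noncomputable def poolRadius (X : ℕ → Ω → Plane) (S : ℕ → ℕ → Ω → ℝ) (V : ℕ → ℕ → Ω → Plane)
    (ω : Ω) (t : ℝ≥0) : ℝ≥0∞ :=
  radius (fun i => walk (X i ω) (fun j => S i j ω) (fun j => V i j ω)) t

end Random

end CriticalPool
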