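import Pool.Agent.H95.CP.Field

open MeasureTheory ProbabilityTheory Filter Set
open scoped ENNReal NNReal Topology

namespace CriticalPool

variable {Ω : Type*} [MeasurableSpace Ω] {P : Measure Ω} [IsProbabilityMeasure P]
  {X : ℕ → Ω → Plane} {S : ℕ → ℕ → Ω → ℝ} {V : ℕ → ℕ → Ω → Plane}

/-- The number of particles that are in `A` at time `t`, as a real number. -/
noncomputable def cA (X : ℕ → Ω → Plane) (S : ℕ → ℕ → Ω → ℝ) (V : ℕ → ℕ → Ω → Plane) (t : ℝ≥0)
    (A : Set Plane) : Ω → ℝ := cnt X (mark S V) (atTime t A)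

lemma measurable_cA (h : IsPoolData P 1 X S V) (t : ℝ≥0) {A : Set Plane}
    (hA : MeasurableSet A) : Measurable (cA X S V t A) :=
  measurable_cnt h.points.measurable h.marked.measurable (measurableSet_atTime t hA)

lemma cast_sum (s : Finset ℕ) (f : ℕ → ℕ∞) :
    ((∑ l ∈ s, f l : ℕ∞) : ℝ≥0∞) = ∑ l ∈ s, (f l : ℝ≥0∞) := by
  classical
  induction s using Finset.induction_on with
  | empty => simp
  | insert a s ha ih => rw [Finset.sum_insert ha, Finset.sum_insert ha, ENat.toENNReal_add, ih]

lemma meas_id' : Measurable fun x : ℝ => x := measurable_id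

lemma meas_sq' : Measurable fun x : ℝ => x ^ 2 := measurable_id.pow_const 2

lemma meas_ge' (c : ℝ) : MeasurableSet {x : ℝ | c ≤ x} := measurableSet_le measurable_const
  measurable_id

lemma law_cA (h : IsPoolData P 1 X S V) (t : ℝ≥0) {A : Set Plane}
    (hA : MeasurableSet A) {v : ℝ} (hvol : volume A = ENNReal.ofReal v) :
    P.map (cA X S V t A) = (poissonMeasure (Real.toNNReal v)).map (Nat.cast : ℕ → ℝ) := by
  have h1 := law_cnt h.points h.marked (measurableSet_atTime t hA)
    (by rw [measure_atTime t hA, hvol]; exact ENNReal.ofReal_ne_top)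
  unfold cA
  rw [h1, measure_atTime t hA, hvol, one_mul]
  rfl

lemma memLp_cA (h : IsPoolData P 1 X S V) (t : ℝ≥0) {A : Set Plane}
    (hA : MeasurableSet A) {v : ℝ} (hvol : volume A = ENNReal.ofReal v) :
    MemLp (cA X S V t A) 2 P := by
  have h1 : MemLp (id : ℝ → ℝ) 2 (P.map (cA X S V t A)) := by
    rw [law_cA h t hA hvol, memLp_map_measure_iff measurable_id.aestronglyMeasurable
      .of_discrete]
    exact memLp_poisson _
  exact h1.comp_of_map (measurable_cA h t hA).aemeasurable

lemma integral_cA (h : IsPoolData P 1 X S V) (t : ℝ≥0) {A : Set Plane}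
    (hA : MeasurableSet A) {v : ℝ} (hv : 0 ≤ v) (hvol : volume A = ENNReal.ofReal v) :
    ∫ ω, cA X S V t A ω ∂P = v := by
  have h1 : ∫ ω, cA X S V t A ω ∂P = ∫ x, x ∂(P.map (cA X S V t A)) := by
    rw [integral_map (measurable_cA h t hA).aemeasurable meas_id'.aestronglyMeasurable]
  rw [h1, law_cA h t hA hvol, integral_map .of_discrete meas_id'.aestronglyMeasurable]
  have h2 := integral_poisson (Real.toNNReal v)
  rw [Real.coe_toNNReal _ hv] at h2
  exact h2

lemma integral_sq_cA (h : IsPoolData P 1 X S V) (t : ℝ≥0) {A : Set Plane}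
    (hA : MeasurableSet A) {v : ℝ} (hv : 0 ≤ v) (hvol : volume A = ENNReal.ofReal v) :
    ∫ ω, (cA X S V t A ω - v) ^ 2 ∂P = v := by
  have h1 := (memLp_cA h t hA hvol)
  have h2 : ∫ ω, (cA X S V t A ω) ^ 2 ∂P = v ^ 2 + v := by
    have h1 : ∫ ω, (cA X S V t A ω) ^ 2 ∂P = ∫ x, x ^ 2 ∂(P.map (cA X S V t A)) := by
      rw [integral_map (measurable_cA h t hA).aemeasurable meas_sq'.aestronglyMeasurable]
    rw [h1, law_cA h t hA hvol, integral_map .of_discrete meas_sq'.aestronglyMeasurable]
    have h2 := integral_sq_poisson (Real.toNNReal v)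
    rw [Real.coe_toNNReal _ hv] at h2
    exact h2
  have h3 : ∀ ω, (cA X S V t A ω - v) ^ 2 =
      (cA X S V t A ω) ^ 2 - 2 * v * cA X S V t A ω + v ^ 2 := fun ω => by ring
  simp_rw [h3]
  have hi1 : Integrable (fun ω => (cA X S V t A ω) ^ 2) P := h1.integrable_sq
  have hi2 : Integrable (fun ω => 2 * v * cA X S V t A ω) P :=
    (h1.integrable (by norm_num)).const_mul _
  have hi3 : Integrable (fun ω => (cA X S V t A ω) ^ 2 - 2 * v * cA X S V t A ω) P :=
    hi1.sub hi2
  rw [integral_add hi3 (integrable_const _), integral_sub hi1 hi2, h2,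
    integral_const_mul, integral_cA h t hA hv hvol]
  simp
  ring

lemma indep_cA (h : IsPoolData P 1 X S V) (t : ℝ≥0) {A : ℕ → Set Plane}
    (hA : ∀ l, MeasurableSet (A l)) (hd : Pairwise (Function.onFun Disjoint A))
    (hfin : ∀ l, volume (A l) ≠ ∞) : iIndepFun (fun l => cA X S V t (A l)) P := by
  rw [iIndepFun_iff_finset]
  intro s
  refine indep_cnt (G := fun l : s => atTime t (A l)) h.points h.marked
    (fun l => measurableSet_atTime t (hA l)) ?_ ?_
  · intro a b hab
    have : Disjoint (A a) (A b) := hd (fun h => hab (Subtype.ext h))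
    exact this.preimage (fun z : Plane × (ℕ → ℝ × Plane) => z.1 + displ t z.2)
  · intro l
    rw [measure_atTime t (hA l)]
    exact hfin l

/-- The ratio of the forbidden window. -/
noncomputable def kap : ℝ := √(1 + c0 / 4)

lemma one_lt_kap : 1 < kap := by
  unfold kap
  rw [Real.lt_sqrt (by norm_num)]
  have := c0_pos
  linarith

/-- The smallest radius we treat. -/
noncomputable def a0 : ℝ := 4 / c0

lemma a0_pos : 0 < a0 := div_pos (by norm_num) c0_pos

/-- With probability bounded below the discs with radii in `[a, κ a]` all carry at time `t` at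
least as many particles as their area. -/
theorem good_event (h : IsPoolData P 1 X S V) (t : ℝ≥0) {a : ℝ} (ha : a0 ≤ a) :
    ∃ B : Set Ω, MeasurableSet B ∧ ENNReal.ofReal (c0 / 2) ≤ P B ∧
      ∀ ω ∈ B, ∀ r : ℝ≥0∞, ENNReal.ofReal a ≤ r → r ≤ ENNReal.ofReal (kap * a) →
        area r ≤ ((num Set.univ (pos X S V ω t) (disc r) : ℕ∞) : ℝ≥0∞) := by
  have hc := c0_pos
  have hc1 := c0_lt_one
  have ha0 : 0 < a := a0_pos.trans_le ha
  have ha4 : 4 ≤ c0 * a := by
    unfold a0 at ha
    rw [div_le_iff₀ hc] at ha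
    linarith
  have ha1 : 4 < a := by nlinarith
  set s : ℝ := Real.pi * a ^ 2 with hs
  have hpi := Real.pi_gt_three
  have hs1 : 1 ≤ s := by nlinarith
  have hs0 : 0 < s := by linarith
  set q : ℝ := √s with hq
  have hq0 : 0 < q := Real.sqrt_pos.mpr hs0
  have hqq : q * q = s := Real.mul_self_sqrt hs0.le
  have hqa : a ≤ q := by
    rw [hq]
    apply Real.le_sqrt_of_sq_le
    nlinarith
  have hcq : 4 ≤ c0 * q := ha4.trans (by gcongr)
  set m : ℕ := ⌊c0 * q / 2⌋₊ with hm
  have hm1 : (m : ℝ) ≤ c0 * q / 2 := Nat.floor_le (by positivity)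
  have hm2 : c0 * q / 4 ≤ m := by
    have := Nat.lt_floor_add_one (c0 * q / 2)
    rw [← hm] at this
    linarith
  have hm3 : 1 ≤ m := by
    have : (1 : ℝ) ≤ m := by linarith
    exact_mod_cast this
  obtain ⟨n, hn⟩ : ∃ n, m = n + 1 := ⟨m - 1, by omega⟩
  set R : ℕ → ℝ≥0∞ := rad s q with hR
  have hRm : Monotone R := rad_mono hq0.le
  have hmeas := measurableSet_ringSet R
  have hvol0 : volume (ringSet R 0) = ENNReal.ofReal s := volume_ring_zero hs0.le hq0.le
  have hvols : ∀ l, volume (ringSet R (l + 1)) = ENNReal.ofReal q :=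
    volume_ring_succ hs0.le hq0.le
  have hind := indep_cA h t hmeas (ringSet_disjoint hRm) (by
    intro l
    cases l with
    | zero => rw [hvol0]; exact ENNReal.ofReal_ne_top
    | succ l => rw [hvols]; exact ENNReal.ofReal_ne_top)
  set D : ℕ → Ω → ℝ := fun l ω => cA X S V t (ringSet R (l + 1)) ω - q with hD
  have hDm : ∀ l, Measurable (D l) := fun l => (measurable_cA h t (hmeas _)).sub_const q
  have hDi : iIndepFun D P := by
    have h1 := hind.precomp (g := fun l => l + 1) (fun a b hab => by simpa using hab)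
    exact h1.comp (fun _ x => x - q) (fun _ => measurable_id.sub_const q)
  have hD2 : ∀ l, MemLp (D l) 2 P := fun l =>
    (memLp_cA h t (hmeas _) (hvols l)).sub (memLp_const q)
  have hD0 : ∀ l, ∫ ω, D l ω ∂P = 0 := by
    intro l
    simp only [hD]
    rw [integral_sub ((memLp_cA h t (hmeas _) (hvols l)).integrable (by norm_num))
      (integrable_const _), integral_cA h t (hmeas _) hq0.le (hvols l)]
    simp
  have hDv : ∀ l, ∫ ω, (D l ω) ^ 2 ∂P ≤ q := fun l =>
    (integral_sq_cA h t (hmeas _) hq0.le (hvols l)).le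
  have hk := kolm hDm hDi hD2 hD0 hDv n hq0
  set Bad : Set Ω := {ω | ∃ k ≤ n, psum D k ω ≤ -q} with hBad
  have hBadm : MeasurableSet Bad := by
    have : Bad = ⋃ k ∈ Finset.range (n + 1), {ω | psum D k ω ≤ -q} := by
      ext ω
      simp only [hBad, mem_ofPred_eq, mem_iUnion, Finset.mem_range, exists_prop]
      constructor
      · rintro ⟨k, hk, hk'⟩
        exact ⟨k, by omega, hk'⟩
      · rintro ⟨k, hk, hk'⟩
        exact ⟨k, by omega, hk'⟩
    rw [this]
    refine Finset.measurableSet_biUnion _ fun k _ => measurableSet_le ?_ measurable_const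
    exact Finset.measurable_sum _ fun l _ => hDm l
  have hBadP : P Bad ≤ ENNReal.ofReal (c0 / 2) := by
    refine hk.trans (ENNReal.ofReal_le_ofReal ?_)
    rw [div_le_iff₀ (by positivity)]
    have h1 : ((n : ℝ) + 1) = m := by rw [hn]; push_cast; ring
    rw [h1]
    nlinarith
  set A : Set Ω := {ω | s + 2 * q ≤ cA X S V t (ringSet R 0) ω} with hA
  have hAm : MeasurableSet A := measurableSet_le measurable_const (measurable_cA h t (hmeas 0))
  have hAP : ENNReal.ofReal c0 ≤ P A := by
    have h1 : P A = (P.map (cA X S V t (ringSet R 0))) {x | s + 2 * q ≤ x} := by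
      rw [Measure.map_apply (measurable_cA h t (hmeas 0)) (meas_ge' _)]
      rfl
    rw [h1, law_cA h t (hmeas 0) hvol0, Measure.map_apply .of_discrete (meas_ge' _)]
    have h2 := poisson_tail (Real.toNNReal s) (by
      rw [Real.one_le_toNNReal]
      exact hs1)
    rw [Real.coe_toNNReal _ hs0.le] at h2
    exact h2
  refine ⟨A \ Bad, hAm.diff hBadm, ?_, ?_⟩
  · have h1 : P A ≤ P (A \ Bad) + P Bad := by
      have : A ⊆ (A \ Bad) ∪ Bad := by
        intro ω hω
        by_cases h2 : ω ∈ Bad
        · exact Or.inr h2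
        · exact Or.inl ⟨hω, h2⟩
      exact (measure_mono this).trans (measure_union_le _ _)
    have h2 : ENNReal.ofReal (c0 / 2) + ENNReal.ofReal (c0 / 2) ≤
        P (A \ Bad) + ENNReal.ofReal (c0 / 2) := by
      rw [← ENNReal.ofReal_add (by positivity) (by positivity)]
      calc ENNReal.ofReal (c0 / 2 + c0 / 2) = ENNReal.ofReal c0 := by congr 1; ring
        _ ≤ P A := hAP
        _ ≤ P (A \ Bad) + P Bad := h1
        _ ≤ _ := by gcongr
    exact (ENNReal.add_le_add_iff_right ENNReal.ofReal_ne_top).mp h2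
  · intro ω hω r hr1 hr2
    obtain ⟨hωA, hωB⟩ := hω
    have hrfin : r ≠ ∞ := ne_top_of_le_ne_top ENNReal.ofReal_ne_top hr2
    obtain ⟨ρ, hρ⟩ : ∃ ρ : ℝ, 0 ≤ ρ ∧ r = ENNReal.ofReal ρ :=
      ⟨r.toReal, ENNReal.toReal_nonneg, (ENNReal.ofReal_toReal hrfin).symm⟩
    obtain ⟨hρ0, rfl⟩ := hρ
    have hρ1 : a ≤ ρ := (ENNReal.ofReal_le_ofReal_iff hρ0).mp hr1
    have hk1 := one_lt_kap
    have hρ2 : ρ ≤ kap * a := (ENNReal.ofReal_le_ofReal_iff (by positivity)).mp hr2
    set u : ℝ := Real.pi * ρ ^ 2 with hu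
    have hu1 : s ≤ u := by
      rw [hs, hu]
      gcongr
    have hkap2 : kap ^ 2 = 1 + c0 / 4 := by
      unfold kap
      rw [Real.sq_sqrt (by positivity)]
    have hu2 : u ≤ s + m * q := by
      have h1 : u ≤ s * kap ^ 2 := by
        rw [hu, hs]
        calc Real.pi * ρ ^ 2 ≤ Real.pi * (kap * a) ^ 2 := by gcongr
          _ = _ := by ring
      rw [hkap2] at h1
      have h2 : s * (c0 / 4) ≤ m * q := by
        calc s * (c0 / 4) = (c0 * q / 4) * q := by rw [← hqq]; ring
          _ ≤ m * q := by gcongr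
      linarith
    set j : ℕ := ⌊(u - s) / q⌋₊ with hj
    have hj1 : (j : ℝ) * q ≤ u - s := by
      rw [← le_div_iff₀ hq0]
      exact Nat.floor_le (div_nonneg (by linarith) hq0.le)
    have hj2 : u - s < (j + 1) * q := by
      rw [← div_lt_iff₀ hq0]
      exact Nat.lt_floor_add_one _
    have hj3 : j ≤ m := by
      have h1 : (j : ℝ) * q ≤ m * q := by linarith
      have h2 : (j : ℝ) ≤ m := le_of_mul_le_mul_right h1 hq0
      exact_mod_cast h2
    have hRj : R j ≤ ENNReal.ofReal ρ := by
      rw [hR]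
      unfold rad
      apply ENNReal.ofReal_le_ofReal
      rw [Real.sqrt_le_left hρ0, div_le_iff₀ Real.pi_pos]
      rw [hu] at hj1
      linarith
    have hsum : s + (j + 1) * q ≤ ∑ l ∈ Finset.range (j + 1), cA X S V t (ringSet R l) ω := by
      rw [Finset.sum_range_succ']
      have h0 : s + 2 * q ≤ cA X S V t (ringSet R 0) ω := hωA
      have h1 : (j : ℝ) * q - q ≤ ∑ l ∈ Finset.range j, cA X S V t (ringSet R (l + 1)) ω := by
        rcases Nat.eq_zero_or_pos j with hj0 | hjpos
        · rw [hj0]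
          simp
          exact hq0.le
        · obtain ⟨k, hk'⟩ : ∃ k, j = k + 1 := ⟨j - 1, by omega⟩
          have h2 : ¬ psum D k ω ≤ -q := fun h3 => hωB ⟨k, by omega, h3⟩
          have h3 := not_le.mp h2
          unfold psum at h3
          simp only [hD] at h3
          rw [Finset.sum_sub_distrib] at h3
          simp only [Finset.sum_const, Finset.card_range, nsmul_eq_mul] at h3
          rw [hk']
          linarith
      linarith
    calc area (ENNReal.ofReal ρ) = ENNReal.ofReal u := area_ofReal hρ0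
      _ ≤ ENNReal.ofReal (∑ l ∈ Finset.range (j + 1), cA X S V t (ringSet R l) ω) := by
          apply ENNReal.ofReal_le_ofReal
          linarith
      _ = ∑ l ∈ Finset.range (j + 1), ENNReal.ofReal (cA X S V t (ringSet R l) ω) := by
          rw [ENNReal.ofReal_sum_of_nonneg]
          intro l _
          unfold cA cnt
          positivity
      _ ≤ ∑ l ∈ Finset.range (j + 1),
          ((num Set.univ (pos X S V ω t) (ringSet R l) : ℕ∞) : ℝ≥0∞) := by
          gcongr with l hl
          exact cnt_le ω t _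
      _ = ((num Set.univ (pos X S V ω t) (disc (R j)) : ℕ∞) : ℝ≥0∞) := by
          rw [num_disc hRm, cast_sum]
      _ ≤ _ := by
          rw [ENat.toENNReal_le]
          unfold num
          apply encard_le_encard
          rintro i ⟨hi, hi'⟩
          exact ⟨hi, disc_mono hRj hi'⟩

end CriticalPool
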