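import Mathlib

open MeasureTheory ProbabilityTheory Filter Set
open scoped ENNReal NNReal Topology

namespace CriticalPool

variable {Ω : Type*} [mΩ : MeasurableSpace Ω] {P : Measure Ω} [IsProbabilityMeasure P]
  {D : ℕ → Ω → ℝ}

/-- Partial sums. -/
noncomputable def psum (D : ℕ → Ω → ℝ) (k : ℕ) (ω : Ω) : ℝ := ∑ l ∈ Finset.range (k + 1), D l ω

omit mΩ in
lemma psum_succ (D : ℕ → Ω → ℝ) (k : ℕ) (ω : Ω) :
    psum D (k + 1) ω = psum D k ω + D (k + 1) ω := by
  unfold psum
  rw [Finset.sum_range_succ]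

omit [IsProbabilityMeasure P] in
lemma memLp_psum (h2 : ∀ l, MemLp (D l) 2 P) (k : ℕ) : MemLp (psum D k) 2 P :=
  memLp_finsetSum _ fun l _ => h2 l

/-- The natural filtration. -/
noncomputable def natF (hm : ∀ l, Measurable (D l)) : Filtration ℕ mΩ :=
  Filtration.natural D fun l => (hm l).stronglyMeasurable

lemma psum_adapted (hm : ∀ l, Measurable (D l)) (k : ℕ) :
    StronglyMeasurable[natF hm k] (psum D k) := by
  have h0 : psum D k = fun ω => ∑ l ∈ Finset.range (k + 1), D l ω := rfl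
  rw [h0]
  refine Finset.stronglyMeasurable_fun_sum _ fun l hl => ?_
  have h1 : StronglyMeasurable[natF hm l] (D l) :=
    Filtration.stronglyAdapted_natural (fun l => (hm l).stronglyMeasurable) l
  exact h1.mono ((natF hm).mono (by
    have := Finset.mem_range.mp hl
    omega))

omit [IsProbabilityMeasure P] in
lemma cross_zero (hm : ∀ l, Measurable (D l)) (hind : iIndepFun D P)
    (h0 : ∀ l, ∫ ω, D l ω ∂P = 0) (k : ℕ) {s : Set Ω} (hs : MeasurableSet[natF hm k] s) :
    ∫ ω in s, psum D k ω * D (k + 1) ω ∂P = 0 := by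
  have hs' : MeasurableSet s := (natF hm).le k s hs
  have h1 : ∫ ω in s, psum D k ω * D (k + 1) ω ∂P =
      ∫ ω, (s.indicator (psum D k) ω) * D (k + 1) ω ∂P := by
    rw [← integral_indicator hs']
    congr 1
    ext ω
    by_cases h : ω ∈ s <;> simp [h]
  have h2 : StronglyMeasurable[natF hm k] (s.indicator (psum D k)) :=
    (psum_adapted hm k).indicator hs
  have h3 := hind.indep_comap_natural_of_lt (fun l => (hm l).stronglyMeasurable)
    (Nat.lt_succ_self k)
  have h4 : IndepFun (s.indicator (psum D k)) (D (k + 1)) P := by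
    rw [IndepFun_iff_Indep]
    exact (indep_of_indep_of_le_right h3 h2.measurable.comap_le).symm
  have h5 := h4.integral_fun_mul_eq_mul_integral
    ((h2.mono ((natF hm).le k)).aestronglyMeasurable) (hm (k + 1)).aestronglyMeasurable
  rw [h1, h5, h0]
  simp

omit [IsProbabilityMeasure P] in
lemma sq_expand (hm : ∀ l, Measurable (D l)) (hind : iIndepFun D P)
    (h2 : ∀ l, MemLp (D l) 2 P) (h0 : ∀ l, ∫ ω, D l ω ∂P = 0) (k : ℕ) {s : Set Ω}
    (hs : MeasurableSet[natF hm k] s) :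
    ∫ ω in s, (psum D (k + 1) ω) ^ 2 ∂P =
      ∫ ω in s, (psum D k ω) ^ 2 ∂P + ∫ ω in s, (D (k + 1) ω) ^ 2 ∂P := by
  have hi1 : Integrable (fun ω => (psum D k ω) ^ 2) P := (memLp_psum h2 k).integrable_sq
  have hi2 : Integrable (fun ω => (D (k + 1) ω) ^ 2) P := (h2 (k + 1)).integrable_sq
  have hi3 : Integrable (fun ω => psum D k ω * D (k + 1) ω) P :=
    (memLp_psum h2 k).integrable_mul (h2 (k + 1))
  have h1 : ∀ ω, (psum D (k + 1) ω) ^ 2 =
      ((psum D k ω) ^ 2 + 2 * (psum D k ω * D (k + 1) ω)) + (D (k + 1) ω) ^ 2 := by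
    intro ω
    rw [psum_succ]
    ring
  simp_rw [h1]
  have hi4 : Integrable (fun ω => 2 * (psum D k ω * D (k + 1) ω)) P := hi3.const_mul 2
  have hi5 : Integrable (fun ω => (psum D k ω) ^ 2 + 2 * (psum D k ω * D (k + 1) ω)) P :=
    hi1.add hi4
  rw [integral_add hi5.integrableOn hi2.integrableOn, integral_add hi1.integrableOn
    hi4.integrableOn, integral_const_mul, cross_zero hm hind h0 k hs]
  ring

/-- Kolmogorov's inequality (one-sided). -/
theorem kolm (hm : ∀ l, Measurable (D l)) (hind : iIndepFun D P)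
    (h2 : ∀ l, MemLp (D l) 2 P) (h0 : ∀ l, ∫ ω, D l ω ∂P = 0) {v : ℝ}
    (hv : ∀ l, ∫ ω, (D l ω) ^ 2 ∂P ≤ v) (n : ℕ) {h : ℝ} (hh : 0 < h) :
    P {ω | ∃ k ≤ n, psum D k ω ≤ -h} ≤ ENNReal.ofReal ((n + 1) * v / h ^ 2) := by
  have hsub : Submartingale (fun k ω => (psum D k ω) ^ 2) (natF hm) P := by
    refine submartingale_of_setIntegral_le_succ (fun k => ?_)
      (fun k => (memLp_psum h2 k).integrable_sq) fun k s hs => ?_
    · exact (psum_adapted hm k).pow 2
    · rw [sq_expand hm hind h2 h0 k hs]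
      have : 0 ≤ ∫ ω in s, (D (k + 1) ω) ^ 2 ∂P := integral_nonneg fun ω => sq_nonneg _
      linarith
  have hvar : ∀ k, ∫ ω, (psum D k ω) ^ 2 ∂P ≤ (k + 1) * v := by
    intro k
    induction k with
    | zero =>
      have : ∀ ω, psum D 0 ω = D 0 ω := fun ω => by simp [psum]
      simp_rw [this]
      simpa using hv 0
    | succ k ih =>
      have h3 := sq_expand hm hind h2 h0 k (s := univ) MeasurableSet.univ
      rw [setIntegral_univ, setIntegral_univ, setIntegral_univ] at h3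
      rw [h3]
      push_cast
      have := hv (k + 1)
      linarith
  obtain ⟨ε, hε⟩ : ∃ ε : ℝ≥0, (ε : ℝ) = h ^ 2 := ⟨⟨h ^ 2, by positivity⟩, rfl⟩
  have hmax := maximal_ineq hsub (fun k ω => sq_nonneg _) (ε := ε) n
  have hset : {ω | ∃ k ≤ n, psum D k ω ≤ -h} ⊆
      {ω | (ε : ℝ) ≤ (Finset.range (n + 1)).sup'
        Finset.nonempty_range_add_one fun k => (psum D k ω) ^ 2} := by
    rintro ω ⟨k, hk, hk'⟩
    simp only [mem_ofPred_eq]
    rw [Finset.le_sup'_iff]
    refine ⟨k, Finset.mem_range.mpr (by omega), ?_⟩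
    rw [hε]
    nlinarith
  have hint : ∫ ω in {ω | (ε : ℝ) ≤ (Finset.range (n + 1)).sup'
        Finset.nonempty_range_add_one fun k => (psum D k ω) ^ 2}, (psum D n ω) ^ 2 ∂P ≤
        (n + 1) * v := by
    refine le_trans (setIntegral_le_integral ((memLp_psum h2 n).integrable_sq)
      (Eventually.of_forall fun ω => sq_nonneg _)) (hvar n)
  have h5 := hmax.trans (ENNReal.ofReal_le_ofReal hint)
  have h6 : (ε : ℝ≥0∞) = ENNReal.ofReal (h ^ 2) := by
    rw [← hε]
    simp
  rw [h6] at h5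
  have hh2 : (0 : ℝ) < h ^ 2 := by positivity
  refine (measure_mono hset).trans ?_
  rw [ENNReal.ofReal_div_of_pos hh2, ENNReal.le_div_iff_mul_le (Or.inl (by simpa using hh.ne'))
    (Or.inl ENNReal.ofReal_ne_top), mul_comm]
  exact h5

end CriticalPool
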