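import Pool.Agent.H95.CP.Marks

open MeasureTheory ProbabilityTheory Filter Set
open scoped ENNReal NNReal Topology

namespace CriticalPool

variable {Ω : Type*} [MeasurableSpace Ω] {P : Measure Ω} [IsProbabilityMeasure P]
  {lam : ℝ≥0} {X : ℕ → Ω → Plane} {K : Type*} [MeasurableSpace K] {ν : Measure K}
  [IsProbabilityMeasure ν] {M : ℕ → Ω → K}

/-- The marks `M i` are independent with law `ν`, and independent of the points. -/
structure Marked (P : Measure Ω) (X : ℕ → Ω → Plane) (M : ℕ → Ω → K) (ν : Measure K) : Prop where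
  measurable : ∀ i, Measurable (M i)
  law : P.map (fun ω => ((fun i => X i ω), (fun i => M i ω))) =
    (P.map (fun ω i => X i ω)).prod (Measure.infinitePi fun _ : ℕ => ν)

lemma pi_product (ν : Measure K) [IsProbabilityMeasure ν] (f : ℕ → K → ℂ)
    (hf : ∀ i, Measurable (f i)) (n : ℕ) :
    ∫ m : ℕ → K, ∏ i ∈ Finset.range n, f i (m i) ∂(Measure.infinitePi fun _ : ℕ => ν) =
      ∏ i ∈ Finset.range n, ∫ k, f i k ∂ν := by
  have h1 : iIndepFun (fun i (m : ℕ → K) => f i (m i)) (Measure.infinitePi fun _ : ℕ => ν) :=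
    iIndepFun_infinitePi (P := fun _ : ℕ => ν) (X := f) hf
  have h2 := h1.precomp (g := fun i : Fin n => (i : ℕ)) Fin.val_injective
  have h3 := h2.integral_fun_prod_eq_prod_integral (fun i =>
    ((hf i).comp (measurable_pi_apply _)).aestronglyMeasurable)
  simp_rw [← Fin.prod_univ_eq_prod_range]
  calc ∫ m : ℕ → K, ∏ i : Fin n, f i (m i) ∂(Measure.infinitePi fun _ : ℕ => ν)
      = ∏ i : Fin n, ∫ m : ℕ → K, f i (m i) ∂(Measure.infinitePi fun _ : ℕ => ν) := h3
    _ = _ := by
        refine Fintype.prod_congr _ _ fun i => ?_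
        have h4 := measurePreserving_eval_infinitePi (fun _ : ℕ => ν) (i : ℕ)
        have h5 : ∫ k, f i k ∂(Measure.map (Function.eval (i : ℕ))
            (Measure.infinitePi fun _ : ℕ => ν)) =
            ∫ m : ℕ → K, f i (m i) ∂(Measure.infinitePi fun _ : ℕ => ν) :=
          integral_map h4.measurable.aemeasurable (hf i).aestronglyMeasurable
        rw [← h5, h4.map_eq]

lemma marks_integral (hX : ∀ i, Measurable (X i)) (hM : Marked P X M ν) {g : Plane × K → ℂ}
    (hg : Measurable g) (hb : ∀ z, ‖g z‖ ≤ 1) (n : ℕ) :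
    ∫ ω, ∏ i ∈ Finset.range n, g (X i ω, M i ω) ∂P =
      ∫ ω, ∏ i ∈ Finset.range n, (∫ m, g (X i ω, m) ∂ν) ∂P := by
  have hXm : Measurable (fun ω i => X i ω) := measurable_pi_iff.mpr hX
  have hXM : Measurable (fun ω => ((fun i => X i ω), (fun i => M i ω))) :=
    hXm.prodMk (measurable_pi_iff.mpr hM.measurable)
  have hG : Measurable fun z : (ℕ → Plane) × (ℕ → K) =>
      ∏ i ∈ Finset.range n, g (z.1 i, z.2 i) := by
    refine Finset.measurable_prod _ fun i _ => hg.comp ?_
    exact ((measurable_pi_apply i).comp measurable_fst).prodMk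
      ((measurable_pi_apply i).comp measurable_snd)
  have hprob : IsProbabilityMeasure (P.map (fun ω i => X i ω)) :=
    Measure.isProbabilityMeasure_map hXm.aemeasurable
  have h1 : ∫ ω, ∏ i ∈ Finset.range n, g (X i ω, M i ω) ∂P =
      ∫ z : (ℕ → Plane) × (ℕ → K), ∏ i ∈ Finset.range n, g (z.1 i, z.2 i)
        ∂(P.map (fun ω => ((fun i => X i ω), (fun i => M i ω)))) := by
    rw [integral_map hXM.aemeasurable hG.aestronglyMeasurable]
  have hGi : Integrable (fun z : (ℕ → Plane) × (ℕ → K) =>
      ∏ i ∈ Finset.range n, g (z.1 i, z.2 i))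
      ((P.map (fun ω i => X i ω)).prod (Measure.infinitePi fun _ : ℕ => ν)) := by
    refine Integrable.of_bound (C := 1) hG.aestronglyMeasurable ?_
    refine Eventually.of_forall fun z => ?_
    rw [norm_prod]
    exact Finset.prod_le_one (fun _ _ => norm_nonneg _) fun i _ => hb _
  rw [h1, hM.law, integral_prod _ hGi]
  have h2 : ∀ x : ℕ → Plane, ∫ m : ℕ → K, ∏ i ∈ Finset.range n, g (x i, m i)
      ∂(Measure.infinitePi fun _ : ℕ => ν) = ∏ i ∈ Finset.range n, ∫ k, g (x i, k) ∂ν :=
    fun x => pi_product ν (fun i k => g (x i, k)) (fun i => hg.comp measurable_prodMk_left) n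
  simp_rw [h2]
  rw [integral_map hXm.aemeasurable]
  refine (Finset.measurable_prod _ fun i _ => ?_).aestronglyMeasurable
  have h3 : Measurable fun x : Plane => ∫ k, g (x, k) ∂ν :=
    (hg.stronglyMeasurable.integral_prod_right').measurable
  exact h3.comp (measurable_pi_apply i)

lemma Marked.law_single (hX : ∀ i, Measurable (X i)) (hM : Marked P X M ν) (i : ℕ) :
    P.map (fun ω => (X i ω, M i ω)) = (P.map (X i)).prod ν := by
  have hXm : Measurable (fun ω i => X i ω) := measurable_pi_iff.mpr hX
  have hXM : Measurable (fun ω => ((fun i => X i ω), (fun i => M i ω))) :=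
    hXm.prodMk (measurable_pi_iff.mpr hM.measurable)
  have h1 : (fun ω => (X i ω, M i ω)) =
      (Prod.map (fun x : ℕ → Plane => x i) (fun m : ℕ → K => m i)) ∘
        (fun ω => ((fun i => X i ω), (fun i => M i ω))) := rfl
  have hprob : IsProbabilityMeasure (P.map (fun ω i => X i ω)) :=
    Measure.isProbabilityMeasure_map hXm.aemeasurable
  rw [h1, ← Measure.map_map ((measurable_pi_apply i).prodMap (measurable_pi_apply i)) hXM,
    hM.law, ← Measure.map_prod_map _ _ (measurable_pi_apply i) (measurable_pi_apply i),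
    Measure.map_map (measurable_pi_apply i) hXm, Measure.infinitePi_map_eval]
  rfl

/-- Campbell's formula for the marked process. -/
lemma Marked.campbell (hX : IsPoissonProcess P lam X) (hM : Marked P X M ν)
    {F : Plane × K → ℝ≥0∞} (hF : Measurable F) :
    ∫⁻ ω, ∑' i, F (X i ω, M i ω) ∂P = lam * ∫⁻ z, F z ∂((volume : Measure Plane).prod ν) := by
  have hm : ∀ i, AEMeasurable (fun ω => F (X i ω, M i ω)) P :=
    fun i => (hF.comp ((hX.measurable i).prodMk (hM.measurable i))).aemeasurable
  rw [lintegral_tsum hm, lintegral_prod _ hF.aemeasurable]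
  have h1 : ∀ i, ∫⁻ ω, F (X i ω, M i ω) ∂P = ∫⁻ x, ∫⁻ k, F (x, k) ∂ν ∂(P.map (X i)) := by
    intro i
    have hprob : IsProbabilityMeasure (P.map (X i)) :=
      Measure.isProbabilityMeasure_map (hX.measurable i).aemeasurable
    rw [← lintegral_prod _ hF.aemeasurable, ← hM.law_single hX.measurable i,
      lintegral_map hF ((hX.measurable i).prodMk (hM.measurable i))]
  simp_rw [h1]
  rw [← lintegral_sum_measure, hX.sum_map, lintegral_smul_measure]
  rfl

lemma Marked.ae_finite (hX : IsPoissonProcess P lam X) (hM : Marked P X M ν)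
    {G : Set (Plane × K)} (hG : MeasurableSet G)
    (hfin : ((volume : Measure Plane).prod ν) G ≠ ∞) :
    ∀ᵐ ω ∂P, {i | (X i ω, M i ω) ∈ G}.Finite := by
  have hF : Measurable (G.indicator (1 : Plane × K → ℝ≥0∞)) := measurable_one.indicator hG
  have h1 := hM.campbell hX hF
  rw [lintegral_indicator_one hG] at h1
  have h2 : ∫⁻ ω, ∑' i, G.indicator (1 : Plane × K → ℝ≥0∞) (X i ω, M i ω) ∂P ≠ ∞ := by
    rw [h1]
    exact ENNReal.mul_ne_top ENNReal.coe_ne_top hfin
  have hm : ∀ i, AEMeasurable (fun ω => G.indicator (1 : Plane × K → ℝ≥0∞) (X i ω, M i ω)) P :=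
    fun i => (hF.comp ((hX.measurable i).prodMk (hM.measurable i))).aemeasurable
  have h3 := ae_lt_top' (AEMeasurable.tsum hm) h2
  filter_upwards [h3] with ω hω
  have h4 : (({i | (X i ω, M i ω) ∈ G}.encard : ℕ∞) : ℝ≥0∞) < ∞ := by
    rw [encard_eq_tsum]
    convert hω using 3 with i
    by_cases hi : (X i ω, M i ω) ∈ G <;> simp [hi]
  have h5 : {i | (X i ω, M i ω) ∈ G}.encard ≠ ⊤ := by
    intro h6
    rw [h6] at h4
    simp at h4
  simpa using h5

section Joint

variable {ι : Type*} [Fintype ι] {G : ι → Set (Plane × K)}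

open Classical in
lemma marked_pgf (hX : IsPoissonProcess P lam X) (hM : Marked P X M ν)
    (hG : ∀ j, MeasurableSet (G j)) (hd : Pairwise (Function.onFun Disjoint G))
    (hfin : ∀ j, ((volume : Measure Plane).prod ν) (G j) ≠ ∞)
    (w : ι → ℂ) (hw : ∀ j, ‖w j‖ ≤ 1) :
    ∫ ω, ∏ j, w j ^ {i | (X i ω, M i ω) ∈ G j}.ncard ∂P =
      Complex.exp (lam * ∑ j, (w j - 1) * (((volume : Measure Plane).prod ν) (G j)).toReal) := by
  set μ : Measure (Plane × K) := (volume : Measure Plane).prod ν with hμ
  set g : Plane × K → ℂ := fun z => ∏ j, (if z ∈ G j then w j else 1) with hg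
  have hgm : Measurable g :=
    Finset.measurable_prod _ fun j _ => Measurable.ite (hG j) measurable_const measurable_const
  have hgb : ∀ z, ‖g z‖ ≤ 1 := fun z => norm_prod_ite hw _
  have hg1 : ∀ z, g z - 1 = ∑ j, (G j).indicator (fun _ => w j - 1) z := by
    intro z
    by_cases hz : ∃ j, z ∈ G j
    · obtain ⟨j, hj⟩ := hz
      have hne : ∀ k, k ≠ j → z ∉ G k := fun k hk hzk =>
        Set.disjoint_left.mp (hd hk) hzk hj
      have h1 : g z = w j := by
        simp only [hg]
        rw [Finset.prod_eq_single j]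
        · rw [if_pos hj]
        · intro k _ hk
          rw [if_neg (hne k hk)]
        · simp
      rw [h1, Finset.sum_eq_single j]
      · rw [indicator_of_mem hj]
      · intro k _ hk
        rw [indicator_of_notMem (hne k hk)]
      · simp
    · push Not at hz
      have h1 : g z = 1 := by
        simp only [hg]
        exact Finset.prod_eq_one fun j _ => if_neg (hz j)
      rw [h1, sub_self]
      symm
      exact Finset.sum_eq_zero fun j _ => indicator_of_notMem (hz j) _
  have hgi : Integrable (fun z => g z - 1) μ := by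
    have : (fun z => g z - 1) = fun z => ∑ j, (G j).indicator (fun _ => w j - 1) z :=
      funext hg1
    rw [this]
    refine integrable_finsetSum _ fun j _ => ?_
    rw [integrable_indicator_iff (hG j)]
    exact integrableOn_const (hfin j)
  set f : Plane → ℂ := fun x => ∫ k, (g (x, k) - 1) ∂ν with hf
  have hgik : ∀ x : Plane, Integrable (fun k => g (x, k)) ν := fun x =>
    Integrable.of_bound (C := 1) (hgm.comp measurable_prodMk_left).aestronglyMeasurable
      (Eventually.of_forall fun k => hgb _)
  have hf1 : ∀ x, 1 + f x = ∫ k, g (x, k) ∂ν := by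
    intro x
    simp only [hf]
    rw [integral_sub (hgik x) (integrable_const _)]
    simp
  have hfm : Measurable f :=
    ((hgm.sub_const 1).stronglyMeasurable.integral_prod_right').measurable
  have hfi : Integrable f := hgi.integral_prod_left
  have hfb : ∀ x, ‖1 + f x‖ ≤ 1 := by
    intro x
    rw [hf1]
    have := norm_integral_le_of_norm_le_const (μ := ν) (f := fun k => g (x, k)) (C := 1)
      (Eventually.of_forall fun k => hgb _)
    simpa using this
  have hlim1 := general_limit hX hfm hfi hfb
  have hfint : ∫ x, f x = ∑ j, (w j - 1) * (μ (G j)).toReal := by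
    simp only [hf]
    rw [← integral_prod _ hgi]
    simp_rw [hg1]
    rw [integral_finsetSum]
    · refine Finset.sum_congr rfl fun j _ => ?_
      rw [integral_indicator_const _ (hG j), Complex.real_smul, mul_comm]
      rfl
    · intro j _
      rw [integrable_indicator_iff (hG j)]
      exact integrableOn_const (hfin j)
  rw [← hfint]
  have hlim2 : Tendsto (fun n => ∫ ω, ∏ i ∈ Finset.range n, g (X i ω, M i ω) ∂P) atTop
      (𝓝 (∫ ω, ∏ j, w j ^ {i | (X i ω, M i ω) ∈ G j}.ncard ∂P)) := by
    refine tendsto_integral_of_dominated_convergence (fun _ => (1 : ℝ)) ?_ (integrable_const _)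
      ?_ ?_
    · intro n
      exact (Finset.measurable_prod _ fun i _ =>
        hgm.comp ((hX.measurable i).prodMk (hM.measurable i))).aestronglyMeasurable
    · intro n
      refine Eventually.of_forall fun ω => ?_
      rw [norm_prod]
      exact Finset.prod_le_one (fun _ _ => norm_nonneg _) fun i _ => hgb _
    · have h3 : ∀ᵐ ω ∂P, ∀ j, {i | (X i ω, M i ω) ∈ G j}.Finite :=
        ae_all_iff.mpr fun j => hM.ae_finite hX (hG j) (hfin j)
      filter_upwards [h3] with ω hω
      refine tendsto_const_nhds.congr' ?_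
      filter_upwards [eventually_prod (fun i => (X i ω, M i ω)) G w hω] with n hn
      exact hn.symm
  have heq : ∀ n, ∫ ω, ∏ i ∈ Finset.range n, g (X i ω, M i ω) ∂P =
      ∫ ω, ∏ i ∈ Finset.range n, (1 + f (X i ω)) ∂P := by
    intro n
    rw [marks_integral hX.measurable hM hgm hgb n]
    simp_rw [hf1]
  simp_rw [heq] at hlim2
  exact tendsto_nhds_unique hlim2 hlim1

/-- The real-valued number of marked points in `G j`. -/
noncomputable def cnt (X : ℕ → Ω → Plane) (M : ℕ → Ω → K) (G : Set (Plane × K)) (ω : Ω) : ℝ :=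
  ({i | (X i ω, M i ω) ∈ G}.ncard : ℝ)

omit [IsProbabilityMeasure P] [IsProbabilityMeasure ν] in
lemma measurable_cnt (hX : ∀ i, Measurable (X i)) (hM : ∀ i, Measurable (M i))
    {A : Set (Plane × K)} (hA : MeasurableSet A) : Measurable (cnt X M A) := by
  unfold cnt
  refine Measurable.comp .of_discrete (measurable_ncard.comp ?_)
  rw [measurable_set_iff]
  intro i
  exact (((hX i).prodMk (hM i)) hA).mem

lemma charFun_one (hX : IsPoissonProcess P lam X) (hM : Marked P X M ν)
    (hG : ∀ j, MeasurableSet (G j)) (hd : Pairwise (Function.onFun Disjoint G))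
    (hfin : ∀ j, ((volume : Measure Plane).prod ν) (G j) ≠ ∞) (j : ι) (u : ℝ) :
    charFun (P.map (cnt X M (G j))) u = Complex.exp (lam *
      ((Complex.exp (u * Complex.I) - 1) * (((volume : Measure Plane).prod ν) (G j)).toReal)) := by
  classical
  have h := marked_pgf hX hM hG hd hfin
    (fun k => if k = j then Complex.exp (u * Complex.I) else 1) (by
      intro k
      split_ifs
      · rw [Complex.norm_exp_ofReal_mul_I]
      · simp)
  have h1 : ∑ k, ((if k = j then Complex.exp (u * Complex.I) else 1) - 1) *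
      ((((volume : Measure Plane).prod ν) (G k)).toReal : ℂ) =
      (Complex.exp (u * Complex.I) - 1) * (((volume : Measure Plane).prod ν) (G j)).toReal := by
    rw [Finset.sum_eq_single j]
    · simp
    · intro k _ hk
      simp [hk]
    · simp
  rw [h1] at h
  rw [← h, charFun_apply_real, integral_map
    (measurable_cnt hX.measurable hM.measurable (hG j)).aemeasurable
    (by fun_prop)]
  congr 1
  ext ω
  rw [Finset.prod_eq_single j]
  · simp only [if_true, cnt]
    rw [← Complex.exp_nat_mul]
    congr 1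
    push_cast
    ring
  · intro k _ hk
    simp [hk]
  · simp

lemma indep_cnt (hX : IsPoissonProcess P lam X) (hM : Marked P X M ν)
    (hG : ∀ j, MeasurableSet (G j)) (hd : Pairwise (Function.onFun Disjoint G))
    (hfin : ∀ j, ((volume : Measure Plane).prod ν) (G j) ≠ ∞) :
    iIndepFun (fun j => cnt X M (G j)) P := by
  have hm : ∀ j, Measurable (cnt X M (G j)) :=
    fun j => measurable_cnt hX.measurable hM.measurable (hG j)
  rw [iIndepFun_iff_charFun_pi fun j => (hm j).aemeasurable]
  intro t
  have h := marked_pgf hX hM hG hd hfin (fun k => Complex.exp ((t k : ℝ) * Complex.I))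
    (fun k => by rw [Complex.norm_exp_ofReal_mul_I])
  simp_rw [charFun_one hX hM hG hd hfin]
  rw [← Complex.exp_sum, ← Finset.mul_sum, ← h, charFun_apply]
  rw [integral_map]
  · congr 1
    ext ω
    simp only [PiLp.inner_apply, cnt]
    rw [Complex.ofReal_sum, Finset.sum_mul, Complex.exp_sum]
    refine Finset.prod_congr rfl fun j _ => ?_
    rw [← Complex.exp_nat_mul]
    congr 1
    simp
    ring
  · have : Measurable fun ω => fun j => cnt X M (G j) ω := measurable_pi_iff.mpr hm
    exact ((MeasurableEquiv.toLp 2 (ι → ℝ)).measurable.comp this).aemeasurable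
  · fun_prop

lemma law_cnt (hX : IsPoissonProcess P lam X) (hM : Marked P X M ν) {A : Set (Plane × K)}
    (hA : MeasurableSet A) (hfin : ((volume : Measure Plane).prod ν) A ≠ ∞) :
    P.map (cnt X M A) = (poissonMeasure (lam * (((volume : Measure Plane).prod ν) A).toNNReal)).map
      (Nat.cast : ℕ → ℝ) := by
  have hm : Measurable (cnt X M A) := measurable_cnt hX.measurable hM.measurable hA
  have hp : IsProbabilityMeasure (P.map (cnt X M A)) :=
    Measure.isProbabilityMeasure_map hm.aemeasurable
  apply Measure.ext_of_charFun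
  ext u
  have h := charFun_one hX hM (G := fun _ : Unit => A) (fun _ => hA)
    (fun a b hab => absurd (Subsingleton.elim a b) hab) (fun _ => hfin) () u
  rw [h, charFun_map_cast_poissonMeasure]
  congr 1
  push_cast
  ring

end Joint

end CriticalPool
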