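import Pool.Agent.H95.CP.Mass

open MeasureTheory ProbabilityTheory Filter Set
open scoped ENNReal NNReal Topology

namespace CriticalPool

/-- The arrival times. -/
noncomputable def arr (S : ℕ → ℝ) (k : ℕ) : ℝ := ∑ l ∈ Finset.range (k + 1), S l

lemma finite_arr {S : ℕ → ℝ} (hS : Tendsto (arr S) atTop atTop) (c : ℝ) :
    {k | arr S k ≤ c}.Finite := by
  have h := hS.eventually (eventually_gt_atTop c)
  rw [eventually_atTop] at h
  obtain ⟨N, hN⟩ := h
  refine (Set.finite_lt_nat N).subset fun k hk => ?_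
  by_contra hc
  exact absurd hk (not_le.mpr (hN k (not_lt.mp hc)))

lemma arr_right {S : ℕ → ℝ} (hS : Tendsto (arr S) atTop atTop) (t : ℝ≥0) :
    ∀ᶠ s : ℝ≥0 in 𝓝[≥] t, {k | arr S k ≤ (s : ℝ)} = {k | arr S k ≤ (t : ℝ)} := by
  have hfin := finite_arr hS ((t : ℝ) + 1)
  have h1 : ∀ᶠ s : ℝ≥0 in 𝓝[≥] t, ∀ k ∈ {k | arr S k ≤ (t : ℝ) + 1},
      (arr S k ≤ (s : ℝ) ↔ arr S k ≤ (t : ℝ)) := by
    rw [eventually_all_finite hfin]
    intro k _
    by_cases hk : arr S k ≤ (t : ℝ)
    · filter_upwards [eventually_mem_nhdsWithin] with s hs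
      have hs' : t ≤ s := hs
      exact ⟨fun _ => hk, fun _ => hk.trans (by exact_mod_cast hs')⟩
    · have hk' := not_le.mp hk
      have h2 : ∀ᶠ s : ℝ≥0 in 𝓝 t, (s : ℝ) < arr S k :=
        (NNReal.continuous_coe.tendsto t).eventually (eventually_lt_nhds hk')
      filter_upwards [mem_nhdsWithin_of_mem_nhds h2] with s hs
      exact ⟨fun h => absurd h (not_le.mpr hs), fun h => absurd h hk⟩
  have h2 : ∀ᶠ s : ℝ≥0 in 𝓝[≥] t, (s : ℝ) < (t : ℝ) + 1 :=
    mem_nhdsWithin_of_mem_nhds
      ((NNReal.continuous_coe.tendsto t).eventually (eventually_lt_nhds (by linarith)))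
  filter_upwards [h1, h2, eventually_mem_nhdsWithin] with s hs1 hs2 hs3
  have hs3' : (t : ℝ) ≤ s := by exact_mod_cast (hs3 : t ≤ s)
  ext k
  simp only [mem_ofPred_eq]
  constructor
  · intro hk
    exact (hs1 k (hk.trans hs2.le)).mp hk
  · intro hk
    exact hk.trans hs3'

lemma arr_left {S : ℕ → ℝ} (hS : Tendsto (arr S) atTop atTop) (t : ℝ≥0)
    (ht : ∀ k, arr S k ≠ (t : ℝ)) :
    ∀ᶠ s : ℝ≥0 in 𝓝[<] t, {k | arr S k ≤ (s : ℝ)} = {k | arr S k ≤ (t : ℝ)} := by
  have hfin := finite_arr hS (t : ℝ)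
  have h1 : ∀ᶠ s : ℝ≥0 in 𝓝[<] t, ∀ k ∈ {k | arr S k ≤ (t : ℝ)}, arr S k ≤ (s : ℝ) := by
    rw [eventually_all_finite hfin]
    intro k hk
    have hk' : arr S k < t := lt_of_le_of_ne hk (ht k)
    have h2 : ∀ᶠ s : ℝ≥0 in 𝓝 t, arr S k < (s : ℝ) :=
      (NNReal.continuous_coe.tendsto t).eventually (eventually_gt_nhds hk')
    filter_upwards [mem_nhdsWithin_of_mem_nhds h2] with s hs
    exact hs.le
  filter_upwards [h1, eventually_mem_nhdsWithin] with s hs1 hs3
  have hs3' : (s : ℝ) < t := by exact_mod_cast (hs3 : s < t)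
  ext k
  simp only [mem_ofPred_eq]
  exact ⟨fun hk => hk.trans hs3'.le, fun hk => hs1 k hk⟩

lemma walk_congr (p : Plane) (S : ℕ → ℝ) (V : ℕ → Plane) {s t : ℝ≥0}
    (h : {k | arr S k ≤ (s : ℝ)} = {k | arr S k ≤ (t : ℝ)}) : walk p S V s = walk p S V t := by
  unfold walk arrivals
  unfold arr at h
  rw [h]

/-- Almost sure properties of the holding times give regular paths. -/
theorem regular_of (X : ℕ → Plane) (S : ℕ → ℕ → ℝ) (V : ℕ → ℕ → Plane)
    (hS : ∀ i, Tendsto (arr (S i)) atTop atTop)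
    (hne : ∀ i j, i ≠ j → ∀ k l, arr (S i) k ≠ arr (S j) l) :
    Regular (fun i => walk (X i) (S i) (V i)) := by
  refine ⟨fun i t => ?_, fun t _ i j hi hj => ?_⟩
  · filter_upwards [arr_right (hS i) t] with s hs using walk_congr _ _ _ hs
  · by_contra hij
    have key : ∀ i, (¬ ∀ᶠ s in 𝓝[<] t, walk (X i) (S i) (V i) s = walk (X i) (S i) (V i) t) →
        ∃ k, arr (S i) k = (t : ℝ) := by
      intro i hi
      by_contra hc
      push Not at hc
      apply hi
      filter_upwards [arr_left (hS i) t hc] with s hs using walk_congr _ _ _ hs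
    obtain ⟨k, hk⟩ := key i hi
    obtain ⟨l, hl⟩ := key j hj
    exact hne i j hij k l (hk.trans hl.symm)

instance : IsProbabilityMeasure (expMeasure 1) := isProbabilityMeasure_expMeasure one_pos

instance : NullSingletonClass (expMeasure 1) := by
  unfold expMeasure gammaMeasure
  infer_instance

lemma expMeasure_ae_pos : ∀ᵐ x ∂(expMeasure 1), 0 < x := by
  have h : (expMeasure 1).real (Iic 0) = 0 := by
    rw [← cdf_eq_real, cdf_expMeasure_eq one_pos]
    simp
  have h2 : (expMeasure 1) (Iic 0) = 0 := by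
    rwa [measureReal_eq_zero_iff] at h
  rw [ae_iff]
  convert h2 using 2
  ext x
  simp

/-- `E e^{-S} < 1`. -/
noncomputable def qexp : ℝ≥0∞ := ∫⁻ x, ENNReal.ofReal (Real.exp (-x)) ∂(expMeasure 1)

lemma qexp_lt_one : qexp < 1 := by
  have h : qexp < ∫⁻ _, 1 ∂(expMeasure 1) := by
    apply lintegral_strict_mono (IsProbabilityMeasure.ne_zero _) aemeasurable_const
    · refine ne_top_of_le_ne_top (b := 1) ENNReal.one_ne_top ?_
      calc ∫⁻ x, ENNReal.ofReal (Real.exp (-x)) ∂(expMeasure 1)
          ≤ ∫⁻ _, 1 ∂(expMeasure 1) := by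
            apply lintegral_mono_ae
            filter_upwards [expMeasure_ae_pos] with x hx
            rw [ENNReal.ofReal_le_one, Real.exp_le_one_iff]
            linarith
        _ = 1 := by simp
    · filter_upwards [expMeasure_ae_pos] with x hx
      rw [ENNReal.ofReal_lt_one, Real.exp_lt_one_iff]
      linarith
  simpa using h

section Prob

variable {Ω : Type*} [MeasurableSpace Ω] {P : Measure Ω} [IsProbabilityMeasure P]
  {lam : ℝ≥0} {X : ℕ → Ω → Plane} {S : ℕ → ℕ → Ω → ℝ} {V : ℕ → ℕ → Ω → Plane}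

omit [IsProbabilityMeasure P] in
lemma IsPoolData.map_hold (h : IsPoolData P lam X S V) (i j : ℕ) :
    P.map (S i j) = expMeasure 1 := by
  have h1 : S i j = Prod.fst ∘ fun ω => (S i j ω, V i j ω) := rfl
  rw [h1, ← Measure.map_map measurable_fst
    ((h.measurable_hold i j).prodMk (h.measurable_jump i j)), h.law]
  simp

omit [IsProbabilityMeasure P] in
lemma IsPoolData.indep_hold (h : IsPoolData P lam X S V) :
    iIndepFun (fun (q : ℕ × ℕ) ω => S q.1 q.2 ω) P :=
  h.indep.comp (fun _ => Prod.fst) (fun _ => measurable_fst)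

omit [IsProbabilityMeasure P] in
lemma IsPoolData.tendsto_arr (h : IsPoolData P lam X S V) (i : ℕ) :
    ∀ᵐ ω ∂P, Tendsto (arr (fun j => S i j ω)) atTop atTop := by
  have hind : iIndepFun (fun (j : ℕ) ω => ENNReal.ofReal (Real.exp (- S i j ω))) P := by
    have h1 : iIndepFun (fun (j : ℕ) ω => S i j ω) P :=
      h.indep_hold.precomp (g := fun j => (i, j)) (fun a b hab => by simpa using hab)
    exact h1.comp (fun _ x => ENNReal.ofReal (Real.exp (-x)))
      (fun _ => ENNReal.measurable_ofReal.comp (Real.measurable_exp.comp measurable_neg))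
  have hmeas : ∀ j, Measurable (fun ω => ENNReal.ofReal (Real.exp (- S i j ω))) := fun j =>
    ENNReal.measurable_ofReal.comp (Real.measurable_exp.comp (h.measurable_hold i j).neg)
  have hint : ∀ j, ∫⁻ ω, ENNReal.ofReal (Real.exp (- S i j ω)) ∂P = qexp := by
    intro j
    unfold qexp
    have hm : Measurable (fun x : ℝ => ENNReal.ofReal (Real.exp (-x))) :=
      ENNReal.measurable_ofReal.comp (Real.measurable_exp.comp measurable_neg)
    rw [← h.map_hold i j, lintegral_map hm (h.measurable_hold i j)]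
  have hk : ∀ k, ∫⁻ ω, ENNReal.ofReal (Real.exp (- arr (fun j => S i j ω) k)) ∂P
      = qexp ^ (k + 1) := by
    intro k
    have h2 : ∀ ω, ENNReal.ofReal (Real.exp (- arr (fun j => S i j ω) k)) =
        ∏ l ∈ Finset.range (k + 1), ENNReal.ofReal (Real.exp (- S i l ω)) := by
      intro ω
      unfold arr
      rw [← Finset.sum_neg_distrib, Real.exp_sum,
        ENNReal.ofReal_prod_of_nonneg (fun l _ => (Real.exp_pos _).le)]
    simp_rw [h2]
    rw [lintegral_prod_eq_prod_lintegral_of_indepFun _ _ hind hmeas]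
    simp [hint]
  have hmeas2 : ∀ k, Measurable (fun ω => ENNReal.ofReal (Real.exp (- arr (fun j => S i j ω) k))) := by
    intro k
    refine ENNReal.measurable_ofReal.comp (Real.measurable_exp.comp ?_)
    unfold arr
    exact (Finset.measurable_sum _ fun l _ => h.measurable_hold i l).neg
  have hsum : ∫⁻ ω, ∑' k, ENNReal.ofReal (Real.exp (- arr (fun j => S i j ω) k)) ∂P ≠ ∞ := by
    rw [lintegral_tsum (fun k => (hmeas2 k).aemeasurable)]
    simp_rw [hk, pow_succ]
    rw [ENNReal.tsum_mul_right, ENNReal.tsum_geometric]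
    refine ENNReal.mul_ne_top ?_ (ne_top_of_lt qexp_lt_one)
    rw [ENNReal.inv_ne_top]
    exact (tsub_pos_of_lt qexp_lt_one).ne'
  have hae := ae_lt_top' (AEMeasurable.tsum fun k => (hmeas2 k).aemeasurable) hsum
  filter_upwards [hae] with ω hω
  have h3 := ENNReal.tendsto_atTop_zero_of_tsum_ne_top hω.ne
  rw [tendsto_atTop]
  intro b
  have h4 := h3.eventually (eventually_lt_nhds (a := (0 : ℝ≥0∞))
    (b := ENNReal.ofReal (Real.exp (-b))) (by simpa using Real.exp_pos _))
  filter_upwards [h4] with k hk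
  rw [ENNReal.ofReal_lt_ofReal_iff (Real.exp_pos _), Real.exp_lt_exp] at hk
  linarith

/-- A sum of independent random variables, the first without atoms, has no atom at `0`. -/
lemma no_atom {A B : Ω → ℝ} (hA : Measurable A) (hB : Measurable B) (hAB : IndepFun A B P)
    [NullSingletonClass (P.map A)] : ∀ᵐ ω ∂P, A ω + B ω ≠ 0 := by
  have h := (indepFun_iff_map_prod_eq_prod_map_map hB.aemeasurable hA.aemeasurable).mp hAB.symm
  have hs : MeasurableSet {p : ℝ × ℝ | p.2 + p.1 ≠ 0} :=
    (measurableSet_eq_fun (measurable_snd.add measurable_fst) measurable_const).compl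
  have h1 : ∀ᵐ p ∂(P.map fun ω => (B ω, A ω)), p.2 + p.1 ≠ 0 := by
    rw [h, Measure.ae_prod_iff_ae_ae hs]
    refine Eventually.of_forall fun b => ?_
    have : (P.map A) {-b} = 0 := measure_singleton _
    rw [ae_iff]
    convert this using 2
    ext a
    simp [eq_neg_iff_add_eq_zero]
  exact ae_of_ae_map (hB.prodMk hA).aemeasurable h1

lemma IsPoolData.ne_arr (h : IsPoolData P lam X S V) {i j : ℕ} (hij : i ≠ j) (k l : ℕ) :
    ∀ᵐ ω ∂P, arr (fun m => S i m ω) k ≠ arr (fun m => S j m ω) l := by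
  classical
  set f : ℕ × ℕ → Ω → ℝ := fun q ω => (if q.1 = i then (1 : ℝ) else -1) * S q.1 q.2 ω with hf
  have hfm : ∀ q, Measurable (f q) := fun q => (h.measurable_hold _ _).const_mul _
  have hfi : iIndepFun f P :=
    h.indep_hold.comp (fun q x => (if q.1 = i then (1 : ℝ) else -1) * x)
      (fun q => measurable_id.const_mul _)
  set s : Finset (ℕ × ℕ) := ((Finset.range k).image fun m => (i, m + 1)) ∪
    ((Finset.range (l + 1)).image fun m => (j, m)) with hs
  have hnot : (i, 0) ∉ s := by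
    simp only [hs, Finset.mem_union, Finset.mem_image, Finset.mem_range, Prod.mk.injEq, not_or,
      not_exists, not_and]
    exact ⟨fun m _ _ => by omega, fun m _ hj => absurd hj.symm hij⟩
  have hind := (hfi.indepFun_finsetSum_of_notMem hfm hnot).symm
  have hna : NullSingletonClass (P.map (f (i, 0))) := by
    have : f (i, 0) = S i 0 := by
      ext ω
      simp [hf]
    rw [this, h.map_hold]
    infer_instance
  have hfs : Measurable (∑ q ∈ s, f q) := by
    have h1 : (∑ q ∈ s, f q) = fun ω => ∑ q ∈ s, f q ω := by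
      ext ω
      simp
    rw [h1]
    exact Finset.measurable_sum s fun q _ => hfm q
  have hmain := no_atom (hfm (i, 0)) hfs hind
  filter_upwards [hmain] with ω hω heq
  apply hω
  have hdisj : Disjoint ((Finset.range k).image fun m => (i, m + 1))
      ((Finset.range (l + 1)).image fun m => (j, m)) := by
    rw [Finset.disjoint_left]
    intro q h1 h2
    simp only [Finset.mem_image, Finset.mem_range] at h1 h2
    obtain ⟨_, _, rfl⟩ := h1
    obtain ⟨_, _, h3⟩ := h2
    exact hij (congrArg Prod.fst h3).symm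
  have hsum : (∑ q ∈ s, f q) ω = (∑ m ∈ Finset.range k, S i (m + 1) ω)
      - ∑ m ∈ Finset.range (l + 1), S j m ω := by
    rw [Finset.sum_apply, hs, Finset.sum_union hdisj, Finset.sum_image, Finset.sum_image]
    · simp [hf, hij.symm, Finset.sum_neg_distrib, sub_eq_add_neg]
    · intro a _ b _ hab
      simpa using hab
    · intro a _ b _ hab
      simpa using hab
  have h0 : f (i, 0) ω = S i 0 ω := by simp [hf]
  rw [hsum, h0]
  unfold arr at heq
  rw [Finset.sum_range_succ'] at heq
  linarith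

/-- Almost surely the particle paths are regular. -/
theorem IsPoolData.regular (h : IsPoolData P lam X S V) :
    ∀ᵐ ω ∂P, Regular (fun i => walk (X i ω) (fun j => S i j ω) (fun j => V i j ω)) := by
  have h1 : ∀ᵐ ω ∂P, ∀ i, Tendsto (arr (fun j => S i j ω)) atTop atTop :=
    ae_all_iff.mpr fun i => h.tendsto_arr i
  have h2 : ∀ᵐ ω ∂P, ∀ i j, i ≠ j → ∀ k l,
      arr (fun m => S i m ω) k ≠ arr (fun m => S j m ω) l := by
    rw [ae_all_iff]
    intro i
    rw [ae_all_iff]
    intro j
    by_cases hij : i = j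
    · exact Eventually.of_forall fun ω hne => absurd hij hne
    · have : ∀ᵐ ω ∂P, ∀ k l, arr (fun m => S i m ω) k ≠ arr (fun m => S j m ω) l := by
        rw [ae_all_iff]
        intro k
        rw [ae_all_iff]
        intro l
        exact h.ne_arr hij k l
      filter_upwards [this] with ω hω _ using hω
  filter_upwards [h1, h2] with ω hω1 hω2
  exact regular_of _ _ _ hω1 hω2

end Prob

end CriticalPool
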