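import Pool.Agent.H95.CP.Marks

open MeasureTheory ProbabilityTheory Filter Set
open scoped ENNReal NNReal Topology

namespace CriticalPool

lemma ofReal_sq_nat (n : ℕ) : ENNReal.ofReal ((n : ℝ) ^ 2) =
    (n : ℝ≥0∞) * ((n - 1 : ℕ) : ℝ≥0∞) + n := by
  rcases n with _ | n
  · simp
  · rw [Nat.add_sub_cancel, ← ENNReal.ofReal_natCast (n + 1), ← ENNReal.ofReal_natCast n,
      ← ENNReal.ofReal_mul (by positivity), ← ENNReal.ofReal_add (by positivity) (by positivity)]
    congr 1
    push_cast
    ring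

lemma lintegral_sq_poisson (r : ℝ≥0) :
    ∫⁻ n : ℕ, ENNReal.ofReal ((n : ℝ) ^ 2) ∂(poissonMeasure r) = (r : ℝ≥0∞) ^ 2 + r := by
  simp_rw [ofReal_sq_nat]
  rw [lintegral_add_right _ .of_discrete, poisson_second, poisson_mean]

lemma memLp_poisson (r : ℝ≥0) : MemLp (fun n : ℕ => (n : ℝ)) 2 (poissonMeasure r) := by
  rw [memLp_two_iff_integrable_sq .of_discrete]
  refine ⟨.of_discrete, ?_⟩
  rw [hasFiniteIntegral_iff_ofReal (Eventually.of_forall fun n => by positivity),
    lintegral_sq_poisson]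
  exact ENNReal.add_lt_top.mpr ⟨ENNReal.pow_lt_top ENNReal.coe_lt_top, ENNReal.coe_lt_top⟩

lemma integral_poisson (r : ℝ≥0) : ∫ n : ℕ, (n : ℝ) ∂(poissonMeasure r) = r := by
  rw [integral_eq_lintegral_of_nonneg_ae (Eventually.of_forall fun n => by positivity)
    .of_discrete]
  simp only [ENNReal.ofReal_natCast]
  rw [poisson_mean]
  rfl

lemma integral_sq_poisson (r : ℝ≥0) :
    ∫ n : ℕ, (n : ℝ) ^ 2 ∂(poissonMeasure r) = (r : ℝ) ^ 2 + r := by
  rw [integral_eq_lintegral_of_nonneg_ae (Eventually.of_forall fun n => by positivity)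
    .of_discrete, lintegral_sq_poisson]
  rw [ENNReal.toReal_add (by simp) (by simp)]
  simp

lemma variance_poisson (r : ℝ≥0) :
    Var[fun n : ℕ => (n : ℝ); poissonMeasure r] = r := by
  rw [variance_eq_sub (memLp_poisson r)]
  have h1 : ((fun n : ℕ => (n : ℝ)) ^ 2) = fun n : ℕ => (n : ℝ) ^ 2 := rfl
  rw [h1, integral_sq_poisson, integral_poisson]
  ring

/-- Comparison of two Poisson laws. -/
lemma poisson_ratio {s : ℝ} (hs : 1 ≤ s) {n : ℕ} (hn : (n : ℝ) ≤ s + 14 * √s) :
    Real.exp (-(s + 8 * √s)) * (s + 8 * √s) ^ n / n.factorial ≤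
      Real.exp 112 * (Real.exp (-s) * s ^ n / n.factorial) := by
  have hs0 : 0 < s := by linarith
  have hq : 0 < √s := Real.sqrt_pos.mpr hs0
  have hqq : √s * √s = s := Real.mul_self_sqrt hs0.le
  have h1 : (s + 8 * √s) ^ n = s ^ n * (1 + 8 / √s) ^ n := by
    rw [← mul_pow]
    congr 1
    field_simp
    nlinarith
  have h2 : (1 + 8 / √s) ^ n ≤ Real.exp (112 + 8 * √s) := by
    calc (1 + 8 / √s) ^ n ≤ (Real.exp (8 / √s)) ^ n := by
          gcongr
          rw [add_comm]
          exact Real.add_one_le_exp _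
      _ = Real.exp (n * (8 / √s)) := by rw [Real.exp_nat_mul]
      _ ≤ Real.exp (112 + 8 * √s) := by
          apply Real.exp_le_exp.mpr
          calc (n : ℝ) * (8 / √s) ≤ (s + 14 * √s) * (8 / √s) := by gcongr
            _ = 112 + 8 * √s := by
                field_simp
                nlinarith
  calc Real.exp (-(s + 8 * √s)) * (s + 8 * √s) ^ n / n.factorial
      = Real.exp (-(s + 8 * √s)) * s ^ n / n.factorial * (1 + 8 / √s) ^ n := by
        rw [h1]
        ring
    _ ≤ Real.exp (-(s + 8 * √s)) * s ^ n / n.factorial * Real.exp (112 + 8 * √s) := by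
        gcongr
    _ = Real.exp 112 * (Real.exp (-s) * s ^ n / n.factorial) := by
        have h3 : Real.exp (-(s + 8 * √s)) * Real.exp (112 + 8 * √s) =
            Real.exp 112 * Real.exp (-s) := by
          rw [← Real.exp_add, ← Real.exp_add]
          congr 1
          ring
        calc _ = (Real.exp (-(s + 8 * √s)) * Real.exp (112 + 8 * √s)) * s ^ n / n.factorial := by
              ring
          _ = _ := by
              rw [h3]
              ring

/-- A constant. -/
noncomputable def c0 : ℝ := 3 / 4 * Real.exp (-112)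

lemma c0_pos : 0 < c0 := by unfold c0; positivity

lemma c0_lt_one : c0 < 1 := by
  unfold c0
  have : Real.exp (-112) ≤ 1 := Real.exp_le_one_iff.mpr (by norm_num)
  linarith

/-- The upper tail of the Poisson law. -/
lemma poisson_tail (s : ℝ≥0) (hs : 1 ≤ s) :
    ENNReal.ofReal c0 ≤ (poissonMeasure s) {n | (s : ℝ) + 2 * √(s : ℝ) ≤ n} := by
  have hs1 : (1 : ℝ) ≤ s := by exact_mod_cast hs
  have hs0 : (0 : ℝ) < s := by linarith
  set q : ℝ := √(s : ℝ) with hq
  have hq0 : 0 < q := Real.sqrt_pos.mpr hs0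
  have hqq : q * q = s := Real.mul_self_sqrt hs0.le
  have hq1 : 1 ≤ q := by
    rw [hq]
    exact Real.one_le_sqrt.mpr hs1
  set s' : ℝ≥0 := s + 8 * (Real.toNNReal q) with hs'
  have hs'r : (s' : ℝ) = s + 8 * q := by
    rw [hs']
    push_cast
    rw [Real.coe_toNNReal _ hq0.le]
  set W : Set ℕ := {n | |(n : ℝ) - s'| < 6 * q} with hW
  have hcheb := meas_ge_le_variance_div_sq (memLp_poisson s') (c := 6 * q) (by positivity)
  rw [variance_poisson, integral_poisson] at hcheb
  have hWc : (poissonMeasure s') Wᶜ ≤ ENNReal.ofReal (1 / 4) := by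
    have h1 : Wᶜ = {n : ℕ | 6 * q ≤ |(n : ℝ) - s'|} := by
      ext n
      simp [hW]
    rw [h1]
    refine hcheb.trans (ENNReal.ofReal_le_ofReal ?_)
    rw [hs'r, div_le_div_iff₀ (by positivity) (by norm_num)]
    nlinarith
  have hWp : ENNReal.ofReal (3 / 4) ≤ (poissonMeasure s') W := by
    have h1 : (poissonMeasure s') W + (poissonMeasure s') Wᶜ = 1 := by
      rw [measure_add_measure_compl (MeasurableSet.of_discrete)]
      exact measure_univ
    have h2 : (1 : ℝ≥0∞) ≤ (poissonMeasure s') W + ENNReal.ofReal (1 / 4) := by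
      rw [← h1]
      gcongr
    have h3 : (1 : ℝ≥0∞) = ENNReal.ofReal (3 / 4) + ENNReal.ofReal (1 / 4) := by
      rw [← ENNReal.ofReal_add (by norm_num) (by norm_num)]
      norm_num
    rw [h3] at h2
    exact (ENNReal.add_le_add_iff_right ENNReal.ofReal_ne_top).mp h2
  have hratio : (poissonMeasure s') W ≤ ENNReal.ofReal (Real.exp 112) * (poissonMeasure s) W := by
    rw [← Measure.tsum_indicator_apply_singleton _ _ (MeasurableSet.of_discrete (s := W)),
      ← Measure.tsum_indicator_apply_singleton (poissonMeasure s) _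
        (MeasurableSet.of_discrete (s := W)), ← ENNReal.tsum_mul_left]
    refine ENNReal.tsum_le_tsum fun n => ?_
    by_cases hn : n ∈ W
    · rw [indicator_of_mem hn, indicator_of_mem hn, poissonMeasure_singleton,
        poissonMeasure_singleton, ← ENNReal.ofReal_mul (by positivity)]
      apply ENNReal.ofReal_le_ofReal
      rw [hs'r]
      apply poisson_ratio hs1
      have hn' : |(n : ℝ) - s'| < 6 * q := hn
      have h1 := (abs_lt.mp hn').2
      rw [hs'r] at h1
      linarith
    · rw [indicator_of_notMem hn, indicator_of_notMem hn]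
      simp
  have hsub : W ⊆ {n | (s : ℝ) + 2 * q ≤ n} := by
    intro n hn
    have hn' : |(n : ℝ) - s'| < 6 * q := hn
    have h1 := (abs_lt.mp hn').1
    rw [hs'r] at h1
    change (s : ℝ) + 2 * q ≤ n
    linarith
  have h4 : ENNReal.ofReal (3 / 4) ≤ ENNReal.ofReal (Real.exp 112) *
      (poissonMeasure s) {n | (s : ℝ) + 2 * q ≤ n} :=
    hWp.trans (hratio.trans (by gcongr))
  calc ENNReal.ofReal c0 = ENNReal.ofReal (Real.exp (-112)) * ENNReal.ofReal (3 / 4) := by
        rw [← ENNReal.ofReal_mul (by positivity)]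
        congr 1
        unfold c0
        ring
    _ ≤ ENNReal.ofReal (Real.exp (-112)) * (ENNReal.ofReal (Real.exp 112) *
      (poissonMeasure s) {n | (s : ℝ) + 2 * q ≤ n}) := by gcongr
    _ = _ := by
        rw [← mul_assoc, ← ENNReal.ofReal_mul (by positivity), ← Real.exp_add]
        simp

end CriticalPool
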