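import Pool.Agent.H95.CP.Mass
import Pool.Agent.H95.CP.Paths
import Pool.Agent.H95.CP.Marked
import Pool.Agent.H95.CP.Tail
import Pool.Agent.H95.CP.Kolm

open MeasureTheory ProbabilityTheory Filter Set
open scoped ENNReal NNReal Topology

namespace CriticalPool

/-- The law of the marks of one particle. -/
noncomputable def markLaw : Measure (ℕ → ℝ × Plane) :=
  Measure.infinitePi fun _ : ℕ => (expMeasure 1).prod (stdGaussian Plane)

instance : IsProbabilityMeasure markLaw := by
  unfold markLaw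
  infer_instance

/-- The marks. -/
def mark {Ω : Type*} (S : ℕ → ℕ → Ω → ℝ) (V : ℕ → ℕ → Ω → Plane) (i : ℕ) (ω : Ω) :
    ℕ → ℝ × Plane := fun j => (S i j ω, V i j ω)

/-- The displacement at time `t`. -/
noncomputable def displ (t : ℝ≥0) (m : ℕ → ℝ × Plane) : Plane :=
  ∑ j ∈ Finset.range (arrivals (fun j => (m j).1) t), (m j).2

lemma measurable_displ (t : ℝ≥0) : Measurable (displ t) := by
  have h1 : Measurable fun m : ℕ → ℝ × Plane => arrivals (fun j => (m j).1) t := by
    unfold arrivals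
    refine measurable_ncard.comp ?_
    rw [measurable_set_iff]
    intro k
    refine MeasurableSet.mem (measurableSet_le ?_ measurable_const)
    exact Finset.measurable_sum _ fun l _ => measurable_fst.comp (measurable_pi_apply l)
  have h2 : Measurable fun p : ℕ × (ℕ → ℝ × Plane) => ∑ j ∈ Finset.range p.1, (p.2 j).2 := by
    refine measurable_from_prod_countable_right fun n => ?_
    have h3 : Measurable fun m : ℕ → ℝ × Plane => ∑ j ∈ Finset.range n, (m j).2 :=
      Finset.measurable_sum _ fun l _ => measurable_snd.comp (measurable_pi_apply l)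
    exact h3
  exact h2.comp (h1.prodMk measurable_id)

/-- Marked points that are in `A` at time `t`. -/
def atTime (t : ℝ≥0) (A : Set Plane) : Set (Plane × (ℕ → ℝ × Plane)) :=
  {z | z.1 + displ t z.2 ∈ A}

lemma measurableSet_atTime (t : ℝ≥0) {A : Set Plane} (hA : MeasurableSet A) :
    MeasurableSet (atTime t A) :=
  (measurable_fst.add ((measurable_displ t).comp measurable_snd)) hA

lemma measure_atTime (t : ℝ≥0) {A : Set Plane} (hA : MeasurableSet A) :
    ((volume : Measure Plane).prod markLaw) (atTime t A) = volume A := by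
  rw [Measure.prod_apply_symm (measurableSet_atTime t hA)]
  have h1 : ∀ m : ℕ → ℝ × Plane,
      (volume : Measure Plane) ((fun x => (x, m)) ⁻¹' atTime t A) = volume A := by
    intro m
    have : (fun x => (x, m)) ⁻¹' atTime t A = (fun x => x + displ t m) ⁻¹' A := rfl
    rw [this, measure_preimage_add_right]
  simp_rw [h1]
  simp

section

variable {Ω : Type*} [MeasurableSpace Ω] {P : Measure Ω} [IsProbabilityMeasure P]
  {lam : ℝ≥0} {X : ℕ → Ω → Plane} {S : ℕ → ℕ → Ω → ℝ} {V : ℕ → ℕ → Ω → Plane}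

lemma IsPoolData.marked (h : IsPoolData P lam X S V) : Marked P X (mark S V) markLaw := by
  have hm : ∀ q : ℕ × ℕ, Measurable fun ω => (S q.1 q.2 ω, V q.1 q.2 ω) :=
    fun q => (h.measurable_hold _ _).prodMk (h.measurable_jump _ _)
  have hX : Measurable fun ω i => X i ω := measurable_pi_iff.mpr h.points.measurable
  have hZ : Measurable fun ω (q : ℕ × ℕ) => (S q.1 q.2 ω, V q.1 q.2 ω) := measurable_pi_iff.mpr hm
  refine ⟨fun i => measurable_pi_iff.mpr fun j => hm (i, j), ?_⟩
  have h1 : P.map (fun ω (q : ℕ × ℕ) => (S q.1 q.2 ω, V q.1 q.2 ω)) =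
      Measure.infinitePi fun _ : ℕ × ℕ => (expMeasure 1).prod (stdGaussian Plane) := by
    rw [h.indep.map_fun_eq_infinitePi_map hm]
    congr 1
    ext1 q
    exact h.law q.1 q.2
  have h2 := (indepFun_iff_map_prod_eq_prod_map_map hX.aemeasurable hZ.aemeasurable).mp
    h.indep_points
  have h3 : (fun ω => ((fun i => X i ω), (fun i => mark S V i ω))) =
      (Prod.map id (MeasurableEquiv.curry ℕ ℕ (ℝ × Plane))) ∘
        (fun ω => ((fun i => X i ω), (fun q : ℕ × ℕ => (S q.1 q.2 ω, V q.1 q.2 ω)))) := by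
    ext1 ω
    rfl
  have hp1 : IsProbabilityMeasure (P.map (fun ω i => X i ω)) :=
    Measure.isProbabilityMeasure_map hX.aemeasurable
  have hp2 : IsProbabilityMeasure (P.map (fun ω (q : ℕ × ℕ) => (S q.1 q.2 ω, V q.1 q.2 ω))) :=
    Measure.isProbabilityMeasure_map hZ.aemeasurable
  rw [h3, ← Measure.map_map (measurable_id.prodMap (MeasurableEquiv.measurable _))
    (hX.prodMk hZ), h2, ← Measure.map_prod_map _ _ measurable_id (MeasurableEquiv.measurable _),
    Measure.map_id, h1]
  congr 1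
  exact Measure.infinitePi_map_curry fun (_ _ : ℕ) => (expMeasure 1).prod (stdGaussian Plane)

/-- Positions at time `t`. -/
noncomputable def pos (X : ℕ → Ω → Plane) (S : ℕ → ℕ → Ω → ℝ) (V : ℕ → ℕ → Ω → Plane)
    (ω : Ω) (t : ℝ≥0) (i : ℕ) : Plane := walk (X i ω) (fun j => S i j ω) (fun j => V i j ω) t

omit [MeasurableSpace Ω] in
lemma mem_atTime (ω : Ω) (t : ℝ≥0) (A : Set Plane) (i : ℕ) :
    (X i ω, mark S V i ω) ∈ atTime t A ↔ pos X S V ω t i ∈ A := Iff.rfl

omit [MeasurableSpace Ω] in
lemma cnt_le (ω : Ω) (t : ℝ≥0) (A : Set Plane) :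
    ENNReal.ofReal (cnt X (mark S V) (atTime t A) ω) ≤
      ((num Set.univ (pos X S V ω t) A : ℕ∞) : ℝ≥0∞) := by
  unfold cnt num
  have h1 : {i | (X i ω, mark S V i ω) ∈ atTime t A} =
      {i | i ∈ Set.univ ∧ pos X S V ω t i ∈ A} := by
    ext i
    simp [mem_atTime]
  rw [h1, ENNReal.ofReal_natCast]
  have h2 := ENat.natCast_toNat_le_self ({i | i ∈ Set.univ ∧ pos X S V ω t i ∈ A}.encard)
  rw [← ncard_def] at h2
  have h3 := ENat.toENNReal_le.mpr h2
  simpa using h3

end

section Geometry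

lemma area_ofReal {r : ℝ} (hr : 0 ≤ r) :
    area (ENNReal.ofReal r) = ENNReal.ofReal (Real.pi * r ^ 2) := by
  unfold area
  rw [ENNReal.ofReal_mul Real.pi_pos.le, ENNReal.ofReal_pow hr]

lemma disc_ofReal {r : ℝ} (hr : 0 ≤ r) : disc (ENNReal.ofReal r) = Metric.closedBall 0 r := by
  ext z
  unfold disc
  rw [mem_ofPred_eq, mem_closedBall_zero_iff, ← ofReal_norm, ENNReal.ofReal_le_ofReal_iff hr]

lemma volume_disc_ofReal {r : ℝ} (hr : 0 ≤ r) :
    volume (disc (ENNReal.ofReal r)) = area (ENNReal.ofReal r) := by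
  rw [disc_ofReal hr, EuclideanSpace.volume_closedBall_fin_two, mul_comm]
  rfl

lemma measurableSet_disc (r : ℝ≥0∞) : MeasurableSet (disc r) :=
  measurableSet_le measurable_enorm measurable_const

/-- Disjoint annuli. -/
def ringSet (R : ℕ → ℝ≥0∞) : ℕ → Set Plane
  | 0 => disc (R 0)
  | l + 1 => disc (R (l + 1)) \ disc (R l)

lemma measurableSet_ringSet (R : ℕ → ℝ≥0∞) (l : ℕ) : MeasurableSet (ringSet R l) := by
  cases l with
  | zero => exact measurableSet_disc _
  | succ l => exact (measurableSet_disc _).diff (measurableSet_disc _)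

lemma ringSet_subset {R : ℕ → ℝ≥0∞} (l : ℕ) : ringSet R l ⊆ disc (R l) := by
  cases l with
  | zero => exact subset_rfl
  | succ l => exact sdiff_subset

lemma ringSet_disjoint {R : ℕ → ℝ≥0∞} (hR : Monotone R) :
    Pairwise (Function.onFun Disjoint (ringSet R)) := by
  have key : ∀ a b, a < b → Disjoint (ringSet R a) (ringSet R b) := by
    intro a b hab
    obtain ⟨c, rfl⟩ : ∃ c, b = c + 1 := ⟨b - 1, by omega⟩
    rw [Set.disjoint_left]
    intro z hz hz'
    exact hz'.2 (disc_mono (hR (by omega : a ≤ c)) (ringSet_subset a hz))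
  intro a b hab
  rcases lt_or_gt_of_ne hab with h | h
  · exact key a b h
  · exact (key b a h).symm

lemma num_disc {R : ℕ → ℝ≥0∞} (hR : Monotone R) (y : ℕ → Plane) (j : ℕ) :
    num Set.univ y (disc (R j)) = ∑ l ∈ Finset.range (j + 1), num Set.univ y (ringSet R l) := by
  induction j with
  | zero => simp [ringSet]
  | succ j ih =>
    rw [Finset.sum_range_succ, ← ih]
    have h := num_split Set.univ y (D := ∅) (empty_subset (disc (R j)))
      (disc_mono (hR (Nat.le_succ j)))
    rw [sdiff_empty, sdiff_empty] at h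
    exact h

/-- The radius grid: the disc of radius `rad s q l` has area `s + l q`. -/
noncomputable def rad (s q : ℝ) (l : ℕ) : ℝ≥0∞ := ENNReal.ofReal (√((s + l * q) / Real.pi))

lemma area_rad {s q : ℝ} (hs : 0 ≤ s) (hq : 0 ≤ q) (l : ℕ) :
    area (rad s q l) = ENNReal.ofReal (s + l * q) := by
  unfold rad
  rw [area_ofReal (Real.sqrt_nonneg _), Real.sq_sqrt (by positivity)]
  congr 1
  field_simp

lemma rad_mono {s q : ℝ} (hq : 0 ≤ q) : Monotone (rad s q) := by
  intro a b hab
  unfold rad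
  apply ENNReal.ofReal_le_ofReal
  apply Real.sqrt_le_sqrt
  gcongr

lemma volume_rad {s q : ℝ} (hs : 0 ≤ s) (hq : 0 ≤ q) (l : ℕ) :
    volume (disc (rad s q l)) = ENNReal.ofReal (s + l * q) := by
  rw [← area_rad hs hq l]
  unfold rad
  exact volume_disc_ofReal (Real.sqrt_nonneg _)

lemma volume_ring_zero {s q : ℝ} (hs : 0 ≤ s) (hq : 0 ≤ q) :
    volume (ringSet (rad s q) 0) = ENNReal.ofReal s := by
  have := volume_rad hs hq 0
  simpa [ringSet] using this

lemma volume_ring_succ {s q : ℝ} (hs : 0 ≤ s) (hq : 0 ≤ q) (l : ℕ) :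
    volume (ringSet (rad s q) (l + 1)) = ENNReal.ofReal q := by
  have h1 : ringSet (rad s q) (l + 1) = disc (rad s q (l + 1)) \ disc (rad s q l) := rfl
  rw [h1, measure_sdiff (disc_mono (rad_mono hq (Nat.le_succ l)))
    (measurableSet_disc _).nullMeasurableSet, volume_rad hs hq, volume_rad hs hq,
    ← ENNReal.ofReal_sub _ (by positivity)]
  · congr 1
    push_cast
    ring
  · rw [volume_rad hs hq]
    exact ENNReal.ofReal_ne_top

end Geometry

end CriticalPool
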