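import Pool.Agent.H95.CP.Defs

open MeasureTheory ProbabilityTheory Filter Set
open scoped ENNReal NNReal Topology

namespace CriticalPool

lemma prod_diff {a b : ℕ → ℂ} (ha : ∀ i, ‖a i‖ ≤ 1) (hb : ∀ i, ‖b i‖ ≤ 1) (n : ℕ) :
    ‖∏ i ∈ Finset.range n, a i - ∏ i ∈ Finset.range n, b i‖ ≤
      ∑ i ∈ Finset.range n, ‖a i - b i‖ := by
  induction n with
  | zero => simp
  | succ n ih =>
    rw [Finset.prod_range_succ, Finset.prod_range_succ, Finset.sum_range_succ]
    have h1 : (∏ i ∈ Finset.range n, a i) * a n - (∏ i ∈ Finset.range n, b i) * b n =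
        (∏ i ∈ Finset.range n, a i - ∏ i ∈ Finset.range n, b i) * a n +
          (∏ i ∈ Finset.range n, b i) * (a n - b n) := by ring
    rw [h1]
    refine (norm_add_le _ _).trans (add_le_add ?_ ?_)
    · rw [norm_mul]
      calc _ ≤ ‖∏ i ∈ Finset.range n, a i - ∏ i ∈ Finset.range n, b i‖ * 1 := by
            gcongr
            exact ha n
        _ ≤ _ := by rw [mul_one]; exact ih
    · rw [norm_mul, norm_prod]
      calc _ ≤ 1 * ‖a n - b n‖ := by
            gcongr
            exact Finset.prod_le_one (fun _ _ => norm_nonneg _) fun i _ => hb i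
        _ = _ := one_mul _

/-- Generating function of the Poisson law. -/
lemma poisson_pgf (r : ℝ≥0) (w : ℂ) :
    ∫ n, w ^ n ∂(poissonMeasure r) = Complex.exp (r * (w - 1)) := by
  rw [integral_poissonMeasure]
  have h := (NormedSpace.expSeries_div_hasSum_exp ((r : ℂ) * w)).mul_left (Complex.exp (-r))
  have h1 : ∀ n : ℕ, (Real.exp (-r) * (r : ℝ) ^ n / (n.factorial : ℝ)) • w ^ n =
      Complex.exp (-r) * (((r : ℂ) * w) ^ n / (n.factorial : ℂ)) := by
    intro n
    rw [Complex.real_smul]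
    push_cast
    rw [mul_pow]
    ring
  simp_rw [h1]
  rw [h.tsum_eq, ← Complex.exp_eq_exp_ℂ, ← Complex.exp_add]
  congr 1
  ring

lemma poisson_succ (r : ℝ≥0) (n : ℕ) :
    ((n + 1 : ℕ) : ℝ≥0∞) * (poissonMeasure r) {n + 1} = r * (poissonMeasure r) {n} := by
  rw [poissonMeasure_singleton, poissonMeasure_singleton]
  have h1 : ((n + 1 : ℕ) : ℝ≥0∞) = ENNReal.ofReal ((n : ℝ) + 1) := by
    rw [← ENNReal.ofReal_natCast]
    push_cast
    rfl
  have h2 : (r : ℝ≥0∞) = ENNReal.ofReal (r : ℝ) := by simp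
  rw [h1, h2, ← ENNReal.ofReal_mul (by positivity), ← ENNReal.ofReal_mul (by positivity)]
  congr 1
  have : ((n + 1).factorial : ℝ) = (n + 1) * n.factorial := by
    rw [Nat.factorial_succ]
    push_cast
    ring
  rw [this]
  have h3 : (n : ℝ) + 1 ≠ 0 := by positivity
  have h4 : (n.factorial : ℝ) ≠ 0 := by positivity
  field_simp
  ring

lemma poisson_mean (r : ℝ≥0) : ∫⁻ n, (n : ℝ≥0∞) ∂(poissonMeasure r) = r := by
  rw [lintegral_countable', tsum_eq_zero_add' ENNReal.summable]
  simp_rw [poisson_succ]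
  rw [ENNReal.tsum_mul_left]
  have h : ∑' n : ℕ, (poissonMeasure r) {n} = 1 := by
    have := measure_univ (μ := poissonMeasure r)
    rw [← this, ← lintegral_one, lintegral_countable']
    simp
  rw [h]
  simp

/-- The second factorial moment of the Poisson law. -/
lemma poisson_second (r : ℝ≥0) :
    ∫⁻ n : ℕ, (n : ℝ≥0∞) * ((n - 1 : ℕ) : ℝ≥0∞) ∂(poissonMeasure r) = r ^ 2 := by
  rw [lintegral_countable', tsum_eq_zero_add' ENNReal.summable]
  have h1 : ∀ n : ℕ, ((n + 1 : ℕ) : ℝ≥0∞) * ((n + 1 - 1 : ℕ) : ℝ≥0∞) * (poissonMeasure r) {n + 1}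
      = r * ((n : ℝ≥0∞) * (poissonMeasure r) {n}) := by
    intro n
    calc _ = ((n : ℕ) : ℝ≥0∞) * (((n + 1 : ℕ) : ℝ≥0∞) * (poissonMeasure r) {n + 1}) := by
          rw [Nat.add_sub_cancel]
          ring
      _ = _ := by
          rw [poisson_succ]
          ring
  simp_rw [h1]
  rw [ENNReal.tsum_mul_left, ← lintegral_countable' (fun n : ℕ => (n : ℝ≥0∞)), poisson_mean]
  simp [sq]

lemma encard_eq_tsum (s : Set ℕ) : ((s.encard : ℕ∞) : ℝ≥0∞) = ∑' i, s.indicator 1 i := by
  rw [← Measure.count_apply (MeasurableSet.of_discrete), ← lintegral_indicator_one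
    (MeasurableSet.of_discrete), lintegral_count]

section

variable {Ω : Type*} [MeasurableSpace Ω] {P : Measure Ω} [IsProbabilityMeasure P]
  {lam : ℝ≥0} {X : ℕ → Ω → Plane}

lemma measurable_num (hX : ∀ i, Measurable (X i)) {A : Set Plane} (hA : MeasurableSet A) :
    Measurable fun ω => num Set.univ (fun i => X i ω) A := by
  unfold num
  refine measurable_encard.comp ?_
  rw [measurable_set_iff]
  intro i
  simp only [mem_univ, true_and, mem_ofPred_eq]
  exact (hX i hA).mem

lemma num_eq (y : ℕ → Plane) (A : Set Plane) :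
    ((num Set.univ y A : ℕ∞) : ℝ≥0∞) = ∑' i, A.indicator 1 (y i) := by
  unfold num
  rw [encard_eq_tsum]
  congr 1
  ext i
  by_cases h : y i ∈ A <;> simp [h]

omit [IsProbabilityMeasure P] in
lemma lintegral_num (hX : ∀ i, Measurable (X i)) {A : Set Plane} (hA : MeasurableSet A) :
    ∫⁻ ω, ((num Set.univ (fun i => X i ω) A : ℕ∞) : ℝ≥0∞) ∂P =
      (Measure.sum (fun i => P.map (X i))) A := by
  simp_rw [num_eq]
  rw [lintegral_tsum, Measure.sum_apply _ hA]
  · congr 1
    ext i
    rw [Measure.map_apply (hX i) hA]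
    rw [← lintegral_indicator_one ((hX i) hA)]
    rfl
  · intro i
    exact ((measurable_one.indicator hA).comp (hX i)).aemeasurable

omit [IsProbabilityMeasure P] in
/-- The intensity measure. -/
lemma IsPoissonProcess.sum_map (hX : IsPoissonProcess P lam X) :
    Measure.sum (fun i => P.map (X i)) = (lam : ℝ≥0∞) • (volume : Measure Plane) := by
  have key : ∀ A : Set Plane, MeasurableSet A → volume A ≠ ∞ →
      Measure.sum (fun i => P.map (X i)) A = (lam : ℝ≥0∞) • (volume : Measure Plane) A := by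
    intro A hA hfin
    rw [← lintegral_num hX.measurable hA]
    have h1 := hX.law A hA hfin
    have h2 : ∫⁻ ω, ((num Set.univ (fun i => X i ω) A : ℕ∞) : ℝ≥0∞) ∂P =
        ∫⁻ n : ℕ∞, (n : ℝ≥0∞) ∂(P.map (fun ω => num Set.univ (fun i => X i ω) A)) := by
      rw [lintegral_map .of_discrete (measurable_num hX.measurable hA)]
    rw [h2, h1, lintegral_map .of_discrete .of_discrete]
    simp only [ENat.toENNReal_coe]
    rw [poisson_mean]
    push_cast
    rw [ENNReal.coe_toNNReal hfin]
    rfl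
  rw [Measure.ext_iff_of_iUnion_eq_univ (s := fun n : ℕ => Metric.ball (0 : Plane) n)
    (Metric.iUnion_ball_nat 0)]
  intro n
  ext A hA
  rw [Measure.restrict_apply hA, Measure.restrict_apply hA]
  have := key (A ∩ Metric.ball (0 : Plane) n) (hA.inter measurableSet_ball)
    (ne_top_of_le_ne_top measure_ball_lt_top.ne (measure_mono inter_subset_right))
  rw [this]
  rfl

omit [IsProbabilityMeasure P] in
/-- Campbell's formula. -/
lemma IsPoissonProcess.campbell (hX : IsPoissonProcess P lam X) {f : Plane → ℝ≥0∞}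
    (hf : Measurable f) : ∫⁻ ω, ∑' i, f (X i ω) ∂P = lam * ∫⁻ x, f x := by
  have hm : ∀ i, AEMeasurable (fun ω => f (X i ω)) P :=
    fun i => (hf.comp (hX.measurable i)).aemeasurable
  rw [lintegral_tsum hm]
  have h1 : ∀ i, ∫⁻ ω, f (X i ω) ∂P = ∫⁻ x, f x ∂(P.map (X i)) := fun i => by
    rw [lintegral_map hf (hX.measurable i)]
  simp_rw [h1]
  rw [← lintegral_sum_measure, hX.sum_map, lintegral_smul_measure]
  rfl

lemma eventually_prod {E ι : Type*} [Fintype ι] (y : ℕ → E) (G : ι → Set E) (w : ι → ℂ)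
    [∀ j, DecidablePred (· ∈ G j)]
    (hfin : ∀ j, {i | y i ∈ G j}.Finite) :
    ∀ᶠ n in atTop, ∏ i ∈ Finset.range n, ∏ j, (if y i ∈ G j then w j else 1) =
      ∏ j, w j ^ {i | y i ∈ G j}.ncard := by
  have h1 : ∀ᶠ n in atTop, ∀ j, ∀ i, y i ∈ G j → i < n := by
    rw [eventually_all]
    intro j
    obtain ⟨b, hb⟩ := (hfin j).bddAbove
    filter_upwards [eventually_gt_atTop b] with n hn i hi
    exact (hb hi).trans_lt hn
  filter_upwards [h1] with n hn
  rw [Finset.prod_comm]
  refine Finset.prod_congr rfl fun j _ => ?_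
  rw [Finset.prod_ite, Finset.prod_const, Finset.prod_const_one, mul_one]
  congr 1
  have : {i | y i ∈ G j} = ((Finset.range n).filter fun i => y i ∈ G j : Finset ℕ) := by
    ext i
    simp only [mem_ofPred_eq, Finset.coe_filter, Finset.mem_range]
    exact ⟨fun h => ⟨hn j i h, h⟩, fun h => h.2⟩
  rw [this, ncard_coe_finset]

lemma norm_prod_ite {ι : Type*} [Fintype ι] {w : ι → ℂ} (hw : ∀ j, ‖w j‖ ≤ 1) (p : ι → Prop)
    [DecidablePred p] : ‖∏ j, (if p j then w j else 1)‖ ≤ 1 := by
  rw [norm_prod]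
  refine Finset.prod_le_one (fun _ _ => norm_nonneg _) fun j _ => ?_
  split_ifs
  · exact hw j
  · simp

omit [IsProbabilityMeasure P] in
lemma IsPoissonProcess.ae_finite (hX : IsPoissonProcess P lam X) {A : Set Plane}
    (hA : MeasurableSet A) (hfin : volume A ≠ ∞) : ∀ᵐ ω ∂P, {i | X i ω ∈ A}.Finite := by
  have h := hX.law A hA hfin
  have h1 : ∀ᵐ n ∂(P.map (fun ω => num Set.univ (fun i => X i ω) A)), n ≠ ⊤ := by
    rw [h, ae_map_iff .of_discrete .of_discrete]
    exact Eventually.of_forall fun n => ENat.natCast_ne_top n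
  have h2 := ae_of_ae_map (measurable_num hX.measurable hA).aemeasurable h1
  filter_upwards [h2] with ω hω
  unfold num at hω
  simpa using hω

omit [IsProbabilityMeasure P] in
lemma IsPoissonProcess.indep' (hX : IsPoissonProcess P lam X) {ι : Type*} [Fintype ι]
    (C : ι → Set Plane) (hC : ∀ j, MeasurableSet (C j))
    (hd : Pairwise (Function.onFun Disjoint C)) :
    iIndepFun (fun j ω => num Set.univ (fun i => X i ω) (C j)) P := by
  let e := Fintype.equivFin ι
  have h := hX.indep (Fintype.card ι) (fun k => C (e.symm k)) (fun k => hC _) (by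
    intro a b hab
    exact hd (fun h => hab (e.symm.injective h)))
  have h2 := h.precomp (g := e) e.injective
  simpa using h2

open Classical in
lemma simple_limit (hX : IsPoissonProcess P lam X) {ι : Type*} [Fintype ι] (C : ι → Set Plane)
    (hC : ∀ j, MeasurableSet (C j)) (hd : Pairwise (Function.onFun Disjoint C))
    (hfin : ∀ j, volume (C j) ≠ ∞) (w : ι → ℂ) (hw : ∀ j, ‖w j‖ ≤ 1) :
    Tendsto (fun n => ∫ ω, ∏ i ∈ Finset.range n, ∏ j, (if X i ω ∈ C j then w j else 1) ∂P) atTop
      (𝓝 (Complex.exp (lam * ∑ j, (w j - 1) * (volume (C j)).toReal))) := by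
  have hlim : ∫ ω, ∏ j, w j ^ {i | X i ω ∈ C j}.ncard ∂P =
      Complex.exp (lam * ∑ j, (w j - 1) * (volume (C j)).toReal) := by
    have h1 : ∀ ω, ∏ j, w j ^ {i | X i ω ∈ C j}.ncard =
        ∏ j, (fun n : ℕ∞ => w j ^ n.toNat) (num Set.univ (fun i => X i ω) (C j)) := by
      intro ω
      refine Finset.prod_congr rfl fun j _ => ?_
      simp [num, ncard_def]
    simp_rw [h1]
    rw [(hX.indep' C hC hd).integral_fun_prod_comp
      (fun j => (measurable_num hX.measurable (hC j)).aemeasurable)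
      (f := fun j (n : ℕ∞) => w j ^ n.toNat) (fun j => .of_discrete)]
    rw [Finset.mul_sum, Complex.exp_sum]
    refine Finset.prod_congr rfl fun j _ => ?_
    have h2 : ∫ ω, w j ^ (num Set.univ (fun i => X i ω) (C j)).toNat ∂P =
        ∫ n : ℕ∞, w j ^ n.toNat ∂(P.map (fun ω => num Set.univ (fun i => X i ω) (C j))) := by
      rw [integral_map (measurable_num hX.measurable (hC j)).aemeasurable .of_discrete]
    rw [h2, hX.law (C j) (hC j) (hfin j), integral_map .of_discrete .of_discrete]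
    simp only [ENat.toNat_natCast]
    rw [poisson_pgf]
    congr 1
    push_cast
    ring
  rw [← hlim]
  refine tendsto_integral_of_dominated_convergence (fun _ => (1 : ℝ)) ?_ (integrable_const _) ?_ ?_
  · intro n
    refine Measurable.aestronglyMeasurable ?_
    refine Finset.measurable_prod _ fun i _ => Finset.measurable_prod _ fun j _ => ?_
    exact Measurable.ite (hX.measurable i (hC j)) measurable_const measurable_const
  · intro n
    refine Eventually.of_forall fun ω => ?_
    rw [norm_prod]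
    exact Finset.prod_le_one (fun _ _ => norm_nonneg _) fun i _ => norm_prod_ite hw _
  · have h3 : ∀ᵐ ω ∂P, ∀ j, {i | X i ω ∈ C j}.Finite :=
      ae_all_iff.mpr fun j => hX.ae_finite (hC j) (hfin j)
    filter_upwards [h3] with ω hω
    refine tendsto_const_nhds.congr' ?_
    filter_upwards [eventually_prod (fun i => X i ω) C w hω] with n hn
    exact hn.symm

lemma compare (hX : IsPoissonProcess P lam X) {f g : Plane → ℂ} (hf : Measurable f)
    (hg : Measurable g) (hf1 : ∀ x, ‖1 + f x‖ ≤ 1) (hg1 : ∀ x, ‖1 + g x‖ ≤ 1) (n : ℕ) :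
    ‖∫ ω, ∏ i ∈ Finset.range n, (1 + f (X i ω)) ∂P -
      ∫ ω, ∏ i ∈ Finset.range n, (1 + g (X i ω)) ∂P‖ₑ ≤ lam * ∫⁻ x, ‖f x - g x‖ₑ := by
  have hb : ∀ h : Plane → ℂ, Measurable h → (∀ x, ‖1 + h x‖ ≤ 1) →
      Integrable (fun ω => ∏ i ∈ Finset.range n, (1 + h (X i ω))) P := by
    intro h hh hh1
    refine Integrable.of_bound (C := 1) ?_ ?_
    · refine Measurable.aestronglyMeasurable ?_
      exact Finset.measurable_prod _ fun i _ => (hh.comp (hX.measurable i)).const_add 1
    · refine Eventually.of_forall fun ω => ?_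
      rw [norm_prod]
      exact Finset.prod_le_one (fun _ _ => norm_nonneg _) fun i _ => hh1 _
  have hfg : Measurable fun x => ‖f x - g x‖ₑ := (hf.sub hg).enorm
  rw [← integral_sub (hb f hf hf1) (hb g hg hg1), ← hX.campbell hfg]
  refine (enorm_integral_le_lintegral_enorm _).trans (lintegral_mono fun ω => ?_)
  have h1 := prod_diff (a := fun i => 1 + f (X i ω)) (b := fun i => 1 + g (X i ω))
    (fun i => hf1 _) (fun i => hg1 _) n
  have h2 : ‖∏ i ∈ Finset.range n, (1 + f (X i ω)) - ∏ i ∈ Finset.range n, (1 + g (X i ω))‖ₑ ≤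
      ∑ i ∈ Finset.range n, ‖f (X i ω) - g (X i ω)‖ₑ := by
    rw [← ofReal_norm]
    refine (ENNReal.ofReal_le_ofReal h1).trans ?_
    rw [ENNReal.ofReal_sum_of_nonneg fun _ _ => norm_nonneg _]
    refine Finset.sum_le_sum fun i _ => ?_
    rw [ofReal_norm]
    simp
  exact h2.trans (ENNReal.sum_le_tsum _)

/-- The Laplace functional of a Poisson process, in the form of a limit of finite products. -/
lemma general_limit (hX : IsPoissonProcess P lam X) {f : Plane → ℂ} (hf : Measurable f)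
    (hint : Integrable f) (hf1 : ∀ x, ‖1 + f x‖ ≤ 1) :
    Tendsto (fun n => ∫ ω, ∏ i ∈ Finset.range n, (1 + f (X i ω)) ∂P) atTop
      (𝓝 (Complex.exp (lam * ∫ x, f x))) := by
  classical
  set s : Set ℂ := {z | ‖1 + z‖ ≤ 1} with hs
  have h0 : (0 : ℂ) ∈ s := by simp [hs]
  set c : ℕ → SimpleFunc Plane ℂ := SimpleFunc.approxOn f hf s 0 h0 with hc
  have hcs : ∀ k x, ‖1 + c k x‖ ≤ 1 := fun k x => SimpleFunc.approxOn_mem hf h0 k x
  have hci : ∀ k, Integrable (c k) := fun k =>
    SimpleFunc.integrable_approxOn hf hint h0 (integrable_zero _ _ _) k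
  have hcl : Tendsto (fun k => ∫⁻ x, ‖c k x - f x‖ₑ) atTop (𝓝 0) := by
    refine SimpleFunc.tendsto_approxOn_L1_enorm hf h0 ?_ ?_
    · exact Eventually.of_forall fun x => subset_closure (hf1 x)
    · simpa using hint.2
  have hcint : Tendsto (fun k => ∫ x, c k x) atTop (𝓝 (∫ x, f x)) :=
    tendsto_integral_of_L1 f hint.aestronglyMeasurable (Eventually.of_forall hci) hcl
  have hcexp : Tendsto (fun k => Complex.exp (lam * ∫ x, c k x)) atTop
      (𝓝 (Complex.exp (lam * ∫ x, f x))) :=
    (Complex.continuous_exp.tendsto _).comp (hcint.const_mul _)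
  have hsimple : ∀ k, Tendsto (fun n => ∫ ω, ∏ i ∈ Finset.range n, (1 + c k (X i ω)) ∂P) atTop
      (𝓝 (Complex.exp (lam * ∫ x, c k x))) := by
    intro k
    set R : Finset ℂ := (c k).range.filter (fun z => z ≠ 0) with hR
    have hmR : ∀ z : R, (z : ℂ) ∈ (c k).range ∧ (z : ℂ) ≠ 0 := fun z => Finset.mem_filter.mp z.2
    have hlim := simple_limit hX (ι := R) (fun z => (c k) ⁻¹' {(z : ℂ)})
      (fun z => (c k).measurableSet_fiber _) (by
        intro a b hab
        simp only [Function.onFun]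
        rw [Set.disjoint_left]
        intro x hx hx'
        apply hab
        ext
        rw [← (hx : c k x = a), ← (hx' : c k x = b)])
      (fun z => by
        exact (SimpleFunc.integrable_iff.mp (hci k) (z : ℂ) (hmR z).2).ne)
      (fun z => 1 + (z : ℂ)) (by
        intro z
        obtain ⟨x, hx⟩ := SimpleFunc.mem_range.mp (hmR z).1
        rw [← hx]
        exact hcs k x)
    have h2 : ∀ x : Plane, ∏ z : R, (if x ∈ (c k) ⁻¹' {(z : ℂ)} then 1 + (z : ℂ) else 1) =
        1 + c k x := by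
      intro x
      by_cases hx : c k x = 0
      · rw [hx, add_zero]
        refine Finset.prod_eq_one fun z _ => ?_
        rw [if_neg]
        intro hmem
        have h3 : c k x = z := hmem
        exact (hmR z).2 (by rw [← h3, hx])
      · have hmem : c k x ∈ R := by
          rw [hR, Finset.mem_filter]
          exact ⟨SimpleFunc.mem_range_self _ _, hx⟩
        rw [Finset.prod_eq_single (⟨c k x, hmem⟩ : R)]
        · simp
        · intro z _ hz
          rw [if_neg]
          intro hmem'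
          apply hz
          ext
          exact (hmem' : c k x = z).symm
        · simp
    have h3 : lam * ∑ z : R, ((1 + (z : ℂ)) - 1) * (volume ((c k) ⁻¹' {(z : ℂ)})).toReal =
        lam * ∫ x, c k x := by
      congr 1
      rw [← SimpleFunc.integral_eq_integral _ (hci k), SimpleFunc.integral_eq_sum_filter]
      rw [← hR, ← Finset.sum_coe_sort R]
      refine Finset.sum_congr rfl fun z _ => ?_
      rw [Complex.real_smul, add_sub_cancel_left, mul_comm]
      rfl
    rw [h3] at hlim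
    refine hlim.congr fun n => ?_
    congr 1
    ext ω
    refine Finset.prod_congr rfl fun i _ => ?_
    exact h2 (X i ω)
  rw [Metric.tendsto_atTop]
  intro ε hε
  have hsmall : Tendsto (fun k => lam * ∫⁻ x, ‖c k x - f x‖ₑ) atTop (𝓝 0) := by
    have := ENNReal.Tendsto.const_mul (a := (lam : ℝ≥0∞)) hcl (Or.inr ENNReal.coe_ne_top)
    simpa using this
  have hε3 : (0 : ℝ≥0∞) < ENNReal.ofReal (ε / 3) := by
    rw [ENNReal.ofReal_pos]
    linarith
  obtain ⟨k, hk1, hk2⟩ := ((hsmall.eventually (eventually_lt_nhds hε3)).and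
    (Metric.tendsto_nhds.mp hcexp (ε / 3) (by linarith))).exists
  obtain ⟨N, hN⟩ := Metric.tendsto_atTop.mp (hsimple k) (ε / 3) (by linarith)
  refine ⟨N, fun n hn => ?_⟩
  have h1 := compare hX (c k).measurable hf (hcs k) hf1 n
  have h2 : ‖∫ ω, ∏ i ∈ Finset.range n, (1 + c k (X i ω)) ∂P -
      ∫ ω, ∏ i ∈ Finset.range n, (1 + f (X i ω)) ∂P‖ < ε / 3 := by
    have h3 := h1.trans_lt hk1
    rw [← ofReal_norm, ENNReal.ofReal_lt_ofReal_iff (by linarith)] at h3
    exact h3
  have h4 := hN n hn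
  rw [dist_eq_norm] at h4 hk2 ⊢
  calc ‖∫ ω, ∏ i ∈ Finset.range n, (1 + f (X i ω)) ∂P - Complex.exp (lam * ∫ x, f x)‖
      = ‖-(∫ ω, ∏ i ∈ Finset.range n, (1 + c k (X i ω)) ∂P -
      ∫ ω, ∏ i ∈ Finset.range n, (1 + f (X i ω)) ∂P) +
        (∫ ω, ∏ i ∈ Finset.range n, (1 + c k (X i ω)) ∂P - Complex.exp (lam * ∫ x, c k x)) +
        (Complex.exp (lam * ∫ x, c k x) - Complex.exp (lam * ∫ x, f x))‖ := by
          congr 1
          ring
    _ ≤ ‖-(∫ ω, ∏ i ∈ Finset.range n, (1 + c k (X i ω)) ∂P -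
      ∫ ω, ∏ i ∈ Finset.range n, (1 + f (X i ω)) ∂P)‖ +
        ‖∫ ω, ∏ i ∈ Finset.range n, (1 + c k (X i ω)) ∂P - Complex.exp (lam * ∫ x, c k x)‖ +
        ‖Complex.exp (lam * ∫ x, c k x) - Complex.exp (lam * ∫ x, f x)‖ :=
        (norm_add_le _ _).trans (add_le_add (norm_add_le _ _) le_rfl)
    _ < ε / 3 + ε / 3 + ε / 3 := by
        rw [norm_neg]
        linarith
    _ = ε := by ring

end

end CriticalPool
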