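import Pool.Agent.H95.CP.Defs

open MeasureTheory ProbabilityTheory Filter Set
open scoped ENNReal NNReal Topology

namespace CriticalPool

/-- Area of the disc of radius `r`. -/
noncomputable def area (r : ℝ≥0∞) : ℝ≥0∞ := ENNReal.ofReal Real.pi * r ^ 2

lemma area_grow (r : ℝ≥0∞) (n : ℕ∞) : area (grow r n) = area r + n := by
  unfold area grow
  have hp : ENNReal.ofReal Real.pi ≠ 0 := by simpa using Real.pi_pos
  have h2 : ((r ^ 2 + (n : ℝ≥0∞) / ENNReal.ofReal Real.pi) ^ (1 / 2 : ℝ)) ^ 2
      = r ^ 2 + (n : ℝ≥0∞) / ENNReal.ofReal Real.pi := by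
    rw [← ENNReal.rpow_natCast, ← ENNReal.rpow_mul]
    norm_num
  rw [h2, mul_add, ENNReal.mul_div_cancel hp ENNReal.ofReal_ne_top]

lemma le_grow (r : ℝ≥0∞) (n : ℕ∞) : r ≤ grow r n := by
  unfold grow
  calc r = (r ^ 2) ^ (1 / 2 : ℝ) := by
        rw [← ENNReal.rpow_natCast, ← ENNReal.rpow_mul]
        norm_num
    _ ≤ _ := ENNReal.rpow_le_rpow le_self_add (by norm_num)

lemma area_mono {r s : ℝ≥0∞} (h : r ≤ s) : area r ≤ area s := by
  unfold area
  gcongr

lemma area_zero : area 0 = 0 := by simp [area]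

lemma area_top : area ∞ = ∞ := by
  unfold area
  rw [ENNReal.top_pow (by norm_num), ENNReal.mul_top]
  simpa using Real.pi_pos

lemma disc_mono {r s : ℝ≥0∞} (h : r ≤ s) : disc r ⊆ disc s := fun _ hz => le_trans hz h

lemma num_split (A : Set ℕ) (y : ℕ → Plane) {D D' D'' : Set Plane} (h : D ⊆ D')
    (h' : D' ⊆ D'') : num A y (D'' \ D) = num A y (D' \ D) + num A y (D'' \ D') := by
  unfold num
  rw [← encard_union_eq]
  · congr 1
    ext i
    simp only [mem_ofPred_eq, mem_union, Set.mem_sdiff]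
    constructor
    · rintro ⟨ha, h1, h2⟩
      by_cases h3 : y i ∈ D'
      · exact Or.inl ⟨ha, h3, h2⟩
      · exact Or.inr ⟨ha, h1, h3⟩
    · rintro (⟨ha, h1, h2⟩ | ⟨ha, h1, h2⟩)
      · exact ⟨ha, h' h1, h2⟩
      · exact ⟨ha, h1, fun h3 => h2 (h h3)⟩
  · rw [Set.disjoint_left]
    rintro i ⟨_, h1, _⟩ ⟨_, _, h2⟩
    exact h2 h1

section Cascade

variable (A : Set ℕ) (y : ℕ → Plane) {D : Set Plane} {r : ℝ≥0∞}

lemma cascade_sub (hD : D ⊆ disc r) (j : ℕ) :
    D ⊆ (cascade A y D r j).1 ∧ (cascade A y D r j).1 ⊆ disc (cascade A y D r j).2 := by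
  induction j with
  | zero => exact ⟨subset_rfl, hD⟩
  | succ j ih =>
    refine ⟨ih.1.trans ih.2, ?_⟩
    exact disc_mono (le_grow _ _)

lemma cascade_area (hD : D ⊆ disc r) (j : ℕ) :
    area (cascade A y D r j).2 = area r + num A y ((cascade A y D r j).1 \ D) := by
  induction j with
  | zero => simp [cascade, num]
  | succ j ih =>
    have h := cascade_sub A y hD j
    have h1 : (cascade A y D r (j + 1)).2 = grow (cascade A y D r j).2
        (num A y (disc (cascade A y D r j).2 \ (cascade A y D r j).1)) := rfl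
    have h2 : (cascade A y D r (j + 1)).1 = disc (cascade A y D r j).2 := rfl
    rw [h1, h2, area_grow, ih, num_split A y h.1 h.2, add_assoc]
    simp

lemma cascadeEnd_area (hD : D ⊆ disc r) :
    num A y (disc (cascadeEnd A y D r) \ D) + area r ≤ area (cascadeEnd A y D r) := by
  classical
  unfold cascadeEnd
  split_ifs with h
  · set N := Nat.find h with hN
    have h0 : xi A y D r N = 0 := Nat.find_spec h
    have h1 : (cascade A y D r (N + 1)).2 = grow (cascade A y D r N).2
        (num A y (disc (cascade A y D r N).2 \ (cascade A y D r N).1)) := rfl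
    have h2 := cascade_sub A y hD N
    have h3 : area (cascade A y D r (N + 1)).2 = area (cascade A y D r N).2 := by
      rw [h1, area_grow]
      unfold xi at h0
      rw [h0]
      simp
    have h4 : (cascade A y D r (N + 1)).2 = (cascade A y D r N).2 := by
      rw [h1]
      unfold xi at h0
      rw [h0]
      unfold grow
      simp only [ENat.toENNReal_zero, ENNReal.zero_div, add_zero]
      rw [← ENNReal.rpow_natCast, ← ENNReal.rpow_mul]
      norm_num
    rw [h4, cascade_area A y hD N, num_split A y h2.1 h2.2]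
    unfold xi at h0
    rw [h0, add_zero, add_comm]
  · rw [area_top]
    exact le_top

end Cascade

/-- The labels of the particles absorbed by time `t`. -/
def inact (x : ℕ → ℝ≥0 → Plane) (E : ℝ≥0 → ℝ≥0∞) (t : ℝ≥0) : Set ℕ :=
  {i | ∃ s ≤ t, x i s ∈ disc (E s)}

/-- Regularity of a family of particle paths: they are right-continuous step paths, and at most
one of them jumps at each time. -/
structure Regular (x : ℕ → ℝ≥0 → Plane) : Prop where
  right : ∀ i t, ∀ᶠ s in 𝓝[≥] t, x i s = x i t
  left : ∀ t, 0 < t → ∀ i j, (¬ ∀ᶠ s in 𝓝[<] t, x i s = x i t) →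
    (¬ ∀ᶠ s in 𝓝[<] t, x j s = x j t) → i = j

/-- The invariant of the evolution. -/
structure Inv (x : ℕ → ℝ≥0 → Plane) (T : ℝ≥0) (E : ℝ≥0 → ℝ≥0∞) : Prop where
  const : ∀ t, T ≤ t → E t = E T
  mass : ((inact x E T).encard : ℝ≥0∞) + 1 ≤ area (E T)

variable {x : ℕ → ℝ≥0 → Plane}

lemma no_new (hx : Regular x) {T : ℝ≥0} {E : ℝ≥0 → ℝ≥0∞} (hE : ∀ t, T ≤ t → E t = E T)
    {t : ℝ≥0} (h : ∀ s, T < s → s ≤ t → s ∉ entrances x T E) : inact x E t ⊆ inact x E T := by
  intro i hi
  by_contra hni
  set B : Set ℝ≥0 := {s | s ≤ t ∧ x i s ∈ disc (E s)} with hB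
  have hBne : B.Nonempty := by
    obtain ⟨s, hs, hs'⟩ := hi
    exact ⟨s, hs, hs'⟩
  have hBT : ∀ s ∈ B, T < s := by
    intro s hs
    by_contra hc
    exact hni ⟨s, not_lt.mp hc, hs.2⟩
  set u := sInf B with hu
  have hbdd : BddBelow B := ⟨0, fun s _ => bot_le⟩
  have hTu : T ≤ u := le_csInf hBne fun s hs => (hBT s hs).le
  have hright := hx.right i u
  obtain ⟨s, hsB, hus, hxs⟩ : ∃ s ∈ B, u ≤ s ∧ x i s = x i u := by
    rw [eventually_nhdsWithin_iff] at hright
    have h1 : ∃ᶠ s in 𝓝 u, s ∈ B := by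
      have := csInf_mem_closure hBne hbdd
      rw [← hu] at this
      exact mem_closure_iff_frequently.mp this
    obtain ⟨s, hs1, hs2⟩ := (h1.and_eventually hright).exists
    have hus : u ≤ s := csInf_le hbdd hs1
    exact ⟨s, hs1, hus, hs2 hus⟩
  have huB : u ∈ B := by
    refine ⟨hus.trans hsB.1, ?_⟩
    have := hsB.2
    rw [hxs, hE s (hTu.trans hus)] at this
    rwa [hE u hTu]
  have hTu' : T < u := hBT u huB
  refine h u hTu' huB.1 ⟨by exact_mod_cast hTu', i, ?_, huB.2⟩
  intro v hv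
  by_contra hc
  have hvB : v ∈ B := ⟨hv.le.trans huB.1, not_lt.mp hc⟩
  exact absurd (csInf_le hbdd hvB) (not_le.mpr hv)

lemma step (hx : Regular x) {T : ℝ≥0} {E : ℝ≥0 → ℝ≥0∞} (h : Inv x T E)
    (hne : (entrances x T E).Nonempty) :
    ∃ T' : ℝ≥0, ∃ E', next x ((T : ℝ≥0∞), E) = ((T' : ℝ≥0∞), E') ∧ Inv x T' E' ∧
      (∀ s, T < s → s < T' → s ∉ entrances x T E) := by
  classical
  set T' : ℝ≥0 := sInf (entrances x T E) with hT'
  have hbdd : BddBelow (entrances x T E) := ⟨0, fun s _ => bot_le⟩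
  have hnot : ∀ s, s < T' → s ∉ entrances x T E := fun s hs hs' =>
    absurd (csInf_le hbdd hs') (not_le.mpr hs)
  have hTT' : T ≤ T' := le_csInf hne fun s hs => by
    have := hs.1
    exact (by exact_mod_cast this : T < s).le
  set A := activeBefore x E T' with hA
  set ρ : ℝ≥0∞ := cascadeEnd A (fun i => x i T') (disc (E T')) (grow (E T') 1) with hρ
  set E' : ℝ≥0 → ℝ≥0∞ := fun t => if t < T' then E t else ρ with hE'
  refine ⟨T', E', ?_, ?_, fun s _ hs => hnot s hs⟩
  · unfold next
    simp only [hne, if_true]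
    rfl
  have hconst : ∀ t, T' ≤ t → E' t = E' T' := by
    intro t ht
    simp [hE', not_lt.mpr ht]
  refine ⟨hconst, ?_⟩
  have hE'T' : E' T' = ρ := by simp [hE']
  rw [hE'T']
  have hc1 : Aᶜ ⊆ inact x E T := by
    intro i hi
    have : ∃ s < T', x i s ∈ disc (E s) := by
      by_contra hc
      push Not at hc
      exact hi fun s hs => not_le.mp (hc s hs)
    obtain ⟨s, hs, hs'⟩ := this
    by_cases hsT : s ≤ T
    · exact ⟨s, hsT, hs'⟩
    · exact no_new hx h.const (t := s) (fun u _ hu => hnot u (hu.trans_lt hs)) ⟨s, le_rfl, hs'⟩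
  have hc2 : ({i | i ∈ A ∧ x i T' ∈ disc (E T')} \ inact x E T).encard ≤ 1 := by
    rw [encard_le_one_iff]
    intro i j hi hj
    rcases hTT'.eq_or_lt with heq | hlt
    · exfalso
      exact hi.2 ⟨T', heq.symm.le, hi.1.2⟩
    · have key : ∀ i, i ∈ A → x i T' ∈ disc (E T') → ¬ ∀ᶠ s in 𝓝[<] T', x i s = x i T' := by
        intro i hiA hiD hc
        have h1 : ∀ᶠ s in 𝓝[<] T', T < s := by
          have := Ioo_mem_nhdsLT hlt
          filter_upwards [this] with s hs using hs.1
        have h2 : ∀ᶠ s in 𝓝[<] T', s < T' := eventually_mem_nhdsWithin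
        have hT'0 : 0 < T' := lt_of_le_of_lt bot_le hlt
        have : (𝓝[<] T').NeBot := nhdsLT_neBot_of_exists_lt ⟨T, hlt⟩
        obtain ⟨s, hs0, hs1, hs2⟩ := (hc.and (h1.and h2)).exists
        have h3 := hiA s hs2
        rw [hs0, h.const s hs1.le] at h3
        rw [h.const T' hTT'] at hiD
        exact absurd hiD (not_le.mpr h3)
      exact hx.left T' (lt_of_le_of_lt bot_le hlt) i j (key i hi.1.1 hi.1.2) (key j hj.1.1 hj.1.2)
  have hsub : inact x E' T' ⊆ (inact x E T ∪ ({i | i ∈ A ∧ x i T' ∈ disc (E T')} \ inact x E T))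
      ∪ {i | i ∈ A ∧ x i T' ∈ disc ρ \ disc (E T')} := by
    rintro i ⟨s, hs, hs'⟩
    by_cases hiA : i ∈ A
    · rcases hs.eq_or_lt with heq | hlt
      · rw [heq, hE'T'] at hs'
        by_cases h1 : x i T' ∈ disc (E T')
        · by_cases h2 : i ∈ inact x E T
          · exact Or.inl (Or.inl h2)
          · exact Or.inl (Or.inr ⟨⟨hiA, h1⟩, h2⟩)
        · exact Or.inr ⟨hiA, hs', h1⟩
      · exfalso
        have h1 : E' s = E s := by simp [hE', hlt]
        rw [h1] at hs'
        exact absurd hs' (not_le.mpr (hiA s hlt))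
    · exact Or.inl (Or.inl (hc1 hiA))
  have hcard : (inact x E' T').encard ≤ (inact x E T).encard + 1
      + num A (fun i => x i T') (disc ρ \ disc (E T')) := by
    refine (encard_le_encard hsub).trans ((encard_union_le _ _).trans ?_)
    gcongr
    · exact (encard_union_le _ _).trans (by gcongr)
    · exact le_rfl
  have hD : disc (E T') ⊆ disc (grow (E T') 1) := disc_mono (le_grow _ _)
  have hend := cascadeEnd_area A (fun i => x i T') hD
  rw [← hρ, area_grow] at hend
  have hcard' : ((inact x E' T').encard : ℝ≥0∞) ≤ ((inact x E T).encard : ℝ≥0∞) + 1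
      + (num A (fun i => x i T') (disc ρ \ disc (E T')) : ℝ≥0∞) := by
    have := ENat.toENNReal_le.mpr hcard
    simpa using this
  calc ((inact x E' T').encard : ℝ≥0∞) + 1
      ≤ ((inact x E T).encard : ℝ≥0∞) + 1
      + (num A (fun i => x i T') (disc ρ \ disc (E T')) : ℝ≥0∞) + 1 := by gcongr
    _ ≤ area (E T) + (num A (fun i => x i T') (disc ρ \ disc (E T')) : ℝ≥0∞) + 1 := by
        gcongr
        exact h.mass
    _ = (num A (fun i => x i T') (disc ρ \ disc (E T')) : ℝ≥0∞) + (area (E T') + (1 : ℕ∞)) := by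
        rw [h.const T' hTT']
        simp only [ENat.toENNReal_one]
        ring
    _ ≤ area ρ := hend

lemma inv_zero : Inv x 0 (stage x 0).2 := by
  refine ⟨fun t _ => rfl, ?_⟩
  have h := cascadeEnd_area (D := ∅) (r := grow 0 1) Set.univ (fun i => x i 0) (empty_subset _)
  rw [area_grow, area_zero] at h
  have h1 : inact x (stage x 0).2 0 = {i | i ∈ Set.univ ∧
      x i 0 ∈ disc (cascadeEnd Set.univ (fun i => x i 0) ∅ (grow 0 1)) \ ∅} := by
    ext i
    simp only [inact, stage, mem_ofPred_eq, mem_univ, true_and, sdiff_empty]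
    constructor
    · rintro ⟨s, hs, hs'⟩
      have : s = 0 := le_antisymm hs bot_le
      rwa [this] at hs'
    · intro h
      exact ⟨0, le_rfl, h⟩
  rw [h1]
  simpa [num, stage] using h

lemma inv_stage (hx : Regular x) (k : ℕ) : ∀ T : ℝ≥0, (stage x k).1 = T →
    Inv x T (stage x k).2 := by
  induction k with
  | zero =>
    intro T hT
    have : T = 0 := by
      have h0 : (stage x 0).1 = 0 := rfl
      rw [h0] at hT
      exact_mod_cast hT.symm
    rw [this]
    exact inv_zero
  | succ k ih =>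
    intro T hT
    have hs : stage x (k + 1) = next x (stage x k) := rfl
    by_cases hne : (entrances x (stage x k).1 (stage x k).2).Nonempty
    · have hfin : (stage x k).1 ≠ ∞ := by
        intro hc
        obtain ⟨s, hs⟩ := hne
        have := hs.1
        rw [hc] at this
        exact absurd this (not_lt.mpr le_top)
      obtain ⟨T₀, hT₀⟩ : ∃ T₀ : ℝ≥0, (T₀ : ℝ≥0∞) = (stage x k).1 :=
        ⟨(stage x k).1.toNNReal, ENNReal.coe_toNNReal hfin⟩
      have hst : stage x k = ((T₀ : ℝ≥0∞), (stage x k).2) := Prod.ext hT₀.symm rfl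
      rw [← hT₀] at hne
      obtain ⟨T', E', h1, h2, _⟩ := step hx (ih T₀ hT₀.symm) hne
      rw [hs, hst, h1] at hT ⊢
      have : T' = T := by
        have hT' : (T' : ℝ≥0∞) = T := hT
        exact_mod_cast hT'
      rw [← this]
      exact h2
    · exfalso
      rw [hs] at hT
      unfold next at hT
      simp [hne] at hT

/-- **Mass balance.** At every time the number of particles in the disc is smaller than its
area. -/
theorem mass_balance (hx : Regular x) (t : ℝ≥0) :
    ((num Set.univ (fun i => x i t) (disc (radius x t)) : ℕ∞) : ℝ≥0∞) + 1 ≤ area (radius x t) := by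
  classical
  unfold radius
  split_ifs with h
  · set k := Nat.find h with hk
    have h1 : (t : ℝ≥0∞) < (stage x (k + 1)).1 := Nat.find_spec h
    have h2 : (stage x k).1 ≤ t := by
      rcases Nat.eq_zero_or_pos k with h0 | hpos
      · rw [h0]
        exact bot_le
      · obtain ⟨m, hm⟩ : ∃ m, k = m + 1 := ⟨k - 1, by omega⟩
        have := Nat.find_min h (m := m) (by omega)
        rw [hm]
        exact not_lt.mp this
    have hfin : (stage x k).1 ≠ ∞ := ne_top_of_le_ne_top ENNReal.coe_ne_top h2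
    obtain ⟨T, hT⟩ : ∃ T : ℝ≥0, (T : ℝ≥0∞) = (stage x k).1 :=
      ⟨(stage x k).1.toNNReal, ENNReal.coe_toNNReal hfin⟩
    have hinv := inv_stage hx k T hT.symm
    have hTt : T ≤ t := by
      rw [← hT] at h2
      exact_mod_cast h2
    have hst : stage x k = ((T : ℝ≥0∞), (stage x k).2) := Prod.ext hT.symm rfl
    have hno : ∀ s, T < s → s ≤ t → s ∉ entrances x T (stage x k).2 := by
      intro s hs hst' hmem
      have hne : (entrances x T (stage x k).2).Nonempty := ⟨s, hmem⟩
      obtain ⟨T', E', h3, _, h5⟩ := step hx hinv hne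
      have h6 : stage x (k + 1) = ((T' : ℝ≥0∞), E') := by
        have : stage x (k + 1) = next x (stage x k) := rfl
        rw [this, hst, h3]
      rw [h6] at h1
      have h7 : t < T' := by
        have h1' : (t : ℝ≥0∞) < T' := h1
        exact_mod_cast h1'
      exact h5 s hs (hst'.trans_lt h7) hmem
    have hsub := no_new hx hinv.const hno
    have hsub' : {i | i ∈ Set.univ ∧ x i t ∈ disc ((stage x k).2 t)} ⊆ inact x (stage x k).2 T := by
      refine Subset.trans ?_ hsub
      rintro i ⟨_, hi⟩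
      exact ⟨t, le_rfl, hi⟩
    have hle : ((num Set.univ (fun i => x i t) (disc ((stage x k).2 t)) : ℕ∞) : ℝ≥0∞) ≤
        ((inact x (stage x k).2 T).encard : ℝ≥0∞) :=
      ENat.toENNReal_le.mpr (encard_le_encard hsub')
    calc _ ≤ ((inact x (stage x k).2 T).encard : ℝ≥0∞) + 1 := by gcongr
      _ ≤ area ((stage x k).2 T) := hinv.mass
      _ = _ := by rw [hinv.const t hTt]
  · rw [area_top]
    exact le_top

end CriticalPool
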